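import Mathlib
import Pool.Agent.Helper11.MT.EQDefs

/-!
Interface statements for the proof of `S18343` (MP_be2988_nt).
-/

open Finset Filter Topology

namespace Pool.Agent.Helper99.MT2

open Pool.Agent.Helper11.MT

/-- The sifting limit of the progression. -/
noncomputable def yJ (J : ℕ) : ℕ := ⌊(J : ℝ) * Real.exp (-Real.sqrt (Real.log J))⌋₊

/-- The modulus: product of the primes `≤ y` except `pe`. -/
def Wf (y pe : ℕ) : ℕ := ∏ p ∈ (range (y + 1)).filter (fun p => p.Prime ∧ p ≠ pe), p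

/-- The sieve level. -/
noncomputable def RK (J : ℕ) : ℕ := ⌊Real.exp ((J : ℝ) / 1000)⌋₊

/-- No prime `q ≠ pe` with `J ^ 2 < q ≤ R` divides `x`. -/
def Rough (J pe : ℕ) (x : ℤ) : Prop :=
  ∀ q : ℕ, q.Prime → J ^ 2 < q → q ≤ RK J → q ≠ pe → ¬ ((q : ℤ) ∣ x)

/-- (ZF) Exceptional prime, and exponential decay of the transforms of the Moebius function. -/
def ZFStatement : Prop :=
  ∃ κ : ℝ, 0 < κ ∧ ∃ C : ℝ, 0 < C ∧ ∀ P0 : ℕ, ∀ᶠ D : ℕ in atTop,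
    ∃ pe : ℕ, pe.Prime ∧ P0 < pe ∧ pe ≤ D ∧
      ∀ N : ℕ, 0 < N → N ≤ D → Squarefree N → ¬ pe ∣ N →
        ∀ χ : DirichletCharacter ℂ N, χ ≠ 1 → ∀ c : ℕ,
          ‖MM (fun n => χ n) c (fun n => (ArithmeticFunction.moebius n : ℝ))‖ ≤
            (Real.log D) ^ C * (1 + κ / Real.log D) ^ (-(c : ℝ))

/-- (EQ2) Equidistribution with growing modulus. -/
def EQ2Statement : Prop :=
  ∀ ε : ℝ, 0 < ε → ∀ P0 : ℕ, ∀ᶠ J : ℕ in atTop,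
    ∃ pe : ℕ, pe.Prime ∧ P0 < pe ∧ pe ≤ RK J ∧
      ∑ x ∈ (FX (Wf (yJ J) pe) (RK J)).filter
          (fun x => pe ∉ x.1 ∧ (x.1.Nonempty ∨ x.2.1 ≠ 1)),
        ((∏ p ∈ x.1, p : ℕ) : ℝ) ^ (-(3 / 4) : ℝ) * ‖MM (xs x) J (thetaR (RK J))‖ ≤ ε

open Classical in
/-- The outcome of the sieve. -/
def SieveStatement : Prop :=
  ∀ r : ℕ, ∃ K : ℕ, 0 < K ∧ ∀ h : Fin K → ℕ, Function.Injective h → ∀ c : ℕ, 0 < c →
    ∃ C : ℝ, 0 < C ∧ ∀ P0 : ℕ, ∀ᶠ J : ℕ in atTop, ∃ pe : ℕ, pe.Prime ∧ P0 < pe ∧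
      ∀ v : ℕ, (∀ i, Nat.Coprime (v + h i) (Wf (yJ J) pe)) →
        ∃ ω : ℕ → ℝ, (∀ m, 0 ≤ ω m) ∧ Summable ω ∧ 0 < ∑' m, ω m ∧
          (∀ m, ω m ≠ 0 → m ≡ v [MOD Wf (yJ J) pe]) ∧
          (∀ m : ℕ, Real.exp ((J : ℝ) / 2) ≤ m → ω m ≤ Real.exp (-(J : ℝ) / 10) * ∑' m, ω m) ∧
          (∑' m : ℕ, (if Real.exp ((J : ℝ) / 2) ≤ m ∧ (m : ℝ) ≤ Real.exp (2 * J) then 0 else ω m) ≤
            Real.exp (-(J : ℝ) / 100) * ∑' m, ω m) ∧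
          ((r : ℝ) * ∑' m, ω m ≤
            ∑' m, ω m * (#(univ.filter (fun i => (m + h i).Prime)) : ℝ)) ∧
          ∀ j : ℤ, |j| ≤ 3 * J → (∀ i, j ≠ c * h i) →
            ∑' m : ℕ, (if Rough J pe (c * m + j) then ω m else 0) ≤
              C * (Real.log J / J) * ∑' m, ω m

/-- Admissible tuples. -/
def Admissible {K : ℕ} (h : Fin K → ℕ) : Prop :=
  ∀ p : ℕ, p.Prime → ∃ a : ℕ, ∀ i, ¬ p ∣ a + h i

/-- The covering statement. -/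
def CoverStatement : Prop :=
  ∀ (K : ℕ) (h : Fin K → ℕ), Function.Injective h → (∀ i, 0 < h i) → Admissible h →
    ∀ c : ℕ, c.Prime → ∀ η : ℝ, 0 < η → ∃ P0 : ℕ, ∀ᶠ J : ℕ in atTop, ∀ pe : ℕ, pe.Prime → P0 < pe →
      ∃ v : ℕ, (∀ i, Nat.Coprime (v + h i) (Wf (yJ J) pe)) ∧
        ∑ j ∈ (Icc (-(3 * J : ℤ)) (3 * J : ℤ)).filter (fun j : ℤ => ∀ i, j ≠ c * h i),
          (1 : ℝ) / (Int.gcd (c * v + j) (Wf (yJ J) pe)) ≤ η * (J / Real.log J)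

end Pool.Agent.Helper99.MT2
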