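import Mathlib
import Pool.Agent.Helper99.MT2.Statement

/-!
The optimisation statement with a general shift.
-/

open Finset

namespace Pool.Agent.Helper99.MT2

open Pool.Agent.Helper11.MT

/-- The quadratic form of the denominator, with shift `κ`. -/
noncomputable def EEg (κ : ℕ) {k W R : ℕ} (y : Finset (QT W R × Fin k) → ℝ) : ℝ :=
  ∑ U : Finset (QT W R × Fin k), (y U) ^ 2 / gg κ U

/-- The vector `y^{(j)}`, with shift `κ`. -/
noncomputable def yjg (κ : ℕ) {k W R : ℕ} (y : Finset (QT W R × Fin k) → ℝ) (j : Fin k)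
    (U : Finset (QT W R × Fin k)) : ℝ :=
  ∑ V ∈ (univ.filter (fun τ : QT W R × Fin k => τ.2 = j)).powerset, y (U ∪ V) / gg κ V

/-- The quadratic forms of the numerator, with shift `κ`. -/
noncomputable def EEjg (κ : ℕ) {k W R : ℕ} (y : Finset (QT W R × Fin k) → ℝ) (j : Fin k) : ℝ :=
  ∑ U ∈ (univ.filter (fun τ : QT W R × Fin k => τ.2 ≠ j)).powerset, (yjg κ y j U) ^ 2 / gg κ U

/-- The optimisation statement (uniform in `W`). -/
def OptimStatement2 : Prop :=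
  ∀ k : ℕ, 2 ^ 16 ≤ k → ∀ κ : ℕ, 1 ≤ κ → κ ≤ 2 * k →
    ∀ W : ℕ, 0 < W → (∀ p : ℕ, p.Prime → p ≤ 4 * k → p ∣ W) →
    ∀ R : ℕ, Real.exp (16 * k * (Nat.log 2 k + 4) / ((Nat.totient W : ℝ) / W)) ≤ R →
    ∃ y : Finset (QT W R × Fin k) → ℝ,
      (∀ U, 0 ≤ y U) ∧ (∀ U, y U ≤ 1) ∧ (∀ U V, U ⊆ V → y V ≤ y U) ∧
      (∀ U, R < nn U → y U = 0) ∧ y ∅ = 1 ∧
      ((Nat.totient W : ℝ) / W * Real.log R * (Nat.log 2 k / 640)) * EEg κ y ≤
        ∑ j : Fin k, EEjg κ y j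

end Pool.Agent.Helper99.MT2
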