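import Mathlib
import Pool.Agent.Helper99.MT2.Statement
import Pool.Agent.Helper11.MT.LargeChars

/-!
Asymptotic estimates for the parameters.
-/

open Finset Filter Topology

namespace Pool.Agent.Helper99.MT2

open Pool.Agent.Helper11.MT

lemma tendsto_sqrt_log : Tendsto (fun J : ℕ => Real.sqrt (Real.log J)) atTop atTop :=
  (Real.tendsto_sqrt_atTop.comp Real.tendsto_log_atTop).comp tendsto_natCast_atTop_atTop

lemma tendsto_exp_neg_sqrt_log :
    Tendsto (fun J : ℕ => Real.exp (-Real.sqrt (Real.log J))) atTop (𝓝 0) :=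
  (Real.tendsto_exp_neg_atTop_nhds_zero).comp tendsto_sqrt_log

lemma yJ_le (J : ℕ) : (yJ J : ℝ) ≤ J * Real.exp (-Real.sqrt (Real.log J)) := by
  unfold yJ
  exact Nat.floor_le (by positivity)

/-- `y = o(J)`. -/
lemma yJ_small {c : ℝ} (hc : 0 < c) : ∀ᶠ J : ℕ in atTop, (yJ J : ℝ) ≤ c * J := by
  filter_upwards [tendsto_exp_neg_sqrt_log.eventually_le_const hc] with J hJ
  refine (yJ_le J).trans ?_
  rw [mul_comm]
  exact mul_le_mul_of_nonneg_right hJ (Nat.cast_nonneg J)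

lemma Wf_pos (y pe : ℕ) : 0 < Wf y pe := by
  unfold Wf
  refine Finset.prod_pos fun p hp => ?_
  rw [Finset.mem_filter] at hp
  exact hp.2.1.pos

lemma Wf_le (y pe : ℕ) : Wf y pe ≤ 4 ^ y := by
  refine le_trans ?_ (primorial_le_four_pow y)
  unfold Wf
  rw [primorial_eq_prod_primesLE]
  refine Finset.prod_le_prod_of_subset_of_one_le' ?_ ?_
  · intro p hp
    rw [Finset.mem_filter, Finset.mem_range] at hp
    rw [Nat.mem_primesLE]
    exact ⟨by omega, hp.2.1⟩
  · intro p hp _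
    rw [Nat.mem_primesLE] at hp
    exact hp.2.one_le

lemma Wf_squarefree (y pe : ℕ) : Squarefree (Wf y pe) := by
  unfold Wf
  refine Finset.squarefree_prod_of_pairwise_isCoprime (fun p hp q hq hpq => ?_) ?_
  · rw [Finset.mem_coe, Finset.mem_filter] at hp hq
    exact Nat.coprime_iff_isRelPrime.mp ((Nat.coprime_primes hp.2.1 hq.2.1).mpr hpq)
  · intro p hp
    rw [Finset.mem_filter] at hp
    exact hp.2.1.squarefree

lemma not_dvd_Wf {y pe : ℕ} (hpe : pe.Prime) : ¬ pe ∣ Wf y pe := by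
  unfold Wf
  intro h
  rw [Prime.dvd_finsetProd_iff hpe.prime] at h
  obtain ⟨p, hp, h⟩ := h
  rw [Finset.mem_filter] at hp
  exact hp.2.2 ((Nat.prime_dvd_prime_iff_eq hpe hp.2.1).mp h).symm

lemma exp_one_le_three : Real.exp 1 ≤ 3 := by
  have := Real.exp_one_lt_d9
  linarith

lemma log_four_le : Real.log 4 ≤ 3 / 2 := by
  have h1 : Real.log 4 = 2 * Real.log 2 := by
    rw [show (4 : ℝ) = 2 ^ 2 by norm_num, Real.log_pow]
    norm_num
  have h2 := Real.log_two_lt_d9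
  rw [h1]; linarith

/-- `W` is subexponential. -/
lemma Wf_small : ∀ᶠ J : ℕ in atTop, ∀ pe : ℕ, (Wf (yJ J) pe : ℝ) ≤ Real.exp ((J : ℝ) / 500000) := by
  filter_upwards [yJ_small (c := 1 / 750000) (by norm_num)] with J hJ pe
  have h1 : (Wf (yJ J) pe : ℝ) ≤ (4 : ℝ) ^ (yJ J) := by exact_mod_cast Wf_le (yJ J) pe
  refine h1.trans ?_
  have h2 : (4 : ℝ) ^ (yJ J) = Real.exp (yJ J * Real.log 4) := by
    rw [Real.exp_nat_mul, Real.exp_log (by norm_num)]
  rw [h2]
  apply Real.exp_le_exp.mpr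
  have h3 := log_four_le
  have h4 : (0 : ℝ) ≤ yJ J := Nat.cast_nonneg _
  calc (yJ J : ℝ) * Real.log 4 ≤ yJ J * (3 / 2) := mul_le_mul_of_nonneg_left h3 h4
    _ ≤ (1 / 750000 * J) * (3 / 2) := mul_le_mul_of_nonneg_right hJ (by norm_num)
    _ = (J : ℝ) / 500000 := by ring

lemma RK_le (J : ℕ) : (RK J : ℝ) ≤ Real.exp ((J : ℝ) / 1000) := by
  unfold RK
  exact Nat.floor_le (Real.exp_pos _).le

lemma one_le_RK (J : ℕ) : 1 ≤ RK J := by
  unfold RK
  rw [Nat.one_le_floor_iff]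
  exact Real.one_le_exp (by positivity)

/-- The conductor bound. -/
noncomputable def DJ (J : ℕ) : ℕ := 4 ^ (yJ J) * J ^ 12

lemma DJ_cast (J : ℕ) : (DJ J : ℝ) = 4 ^ (yJ J) * (J : ℝ) ^ 12 := by
  unfold DJ; push_cast; ring

lemma le_DJ (J : ℕ) : J ≤ DJ J := by
  unfold DJ
  rcases Nat.eq_zero_or_pos J with h | h
  · rw [h]; exact Nat.zero_le _
  · calc J = 1 * J ^ 1 := by ring
      _ ≤ 4 ^ (yJ J) * J ^ 12 :=
        Nat.mul_le_mul (Nat.one_le_pow _ _ (by norm_num)) (Nat.pow_le_pow_right h (by norm_num))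

lemma tendsto_DJ : Tendsto DJ atTop atTop := tendsto_atTop_mono le_DJ tendsto_id

lemma log_DJ {J : ℕ} (hJ : 1 ≤ J) : Real.log (DJ J) = yJ J * Real.log 4 + 12 * Real.log J := by
  have hJ' : (J : ℝ) ≠ 0 := by positivity
  rw [DJ_cast, Real.log_mul (by positivity) (by positivity), Real.log_pow, Real.log_pow]
  norm_num

/-- `(log J)^2 log D = o(J)`. -/
lemma tendsto_log_sq_DJ :
    Tendsto (fun J : ℕ => (Real.log J) ^ 2 * Real.log (DJ J) / J) atTop (𝓝 0) := by
  have h1 : Tendsto (fun J : ℕ => (Real.log J) ^ 2 * Real.exp (-Real.sqrt (Real.log J)))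
      atTop (𝓝 0) := by
    have h := (Real.tendsto_pow_mul_exp_neg_atTop_nhds_zero 4).comp tendsto_sqrt_log
    refine h.congr' ?_
    filter_upwards [eventually_ge_atTop 1] with J hJ
    have hl : 0 ≤ Real.log J := Real.log_nonneg (by exact_mod_cast hJ)
    simp only [Function.comp_apply]
    congr 1
    calc Real.sqrt (Real.log J) ^ 4 = (Real.sqrt (Real.log J) ^ 2) ^ 2 := by ring
      _ = (Real.log J) ^ 2 := by rw [Real.sq_sqrt hl]
  have h2 : Tendsto (fun J : ℕ => (Real.log J) ^ 3 / J) atTop (𝓝 0) := by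
    have h3 : Tendsto (fun x : ℝ => Real.log x ^ 3 / x) atTop (𝓝 0) := by
      have := Real.isLittleO_pow_log_id_atTop (n := 3)
      exact this.tendsto_div_nhds_zero
    exact h3.comp tendsto_natCast_atTop_atTop
  have h3 := (h1.const_mul (3 / 2)).add (h2.const_mul 12)
  rw [mul_zero, mul_zero, add_zero] at h3
  refine squeeze_zero' ?_ ?_ h3
  · filter_upwards [eventually_ge_atTop 1] with J hJ
    have hD : (1 : ℝ) ≤ DJ J := by exact_mod_cast hJ.trans (le_DJ J)
    have := Real.log_nonneg hD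
    positivity
  · filter_upwards [eventually_ge_atTop 1] with J hJ
    have hJ0 : (0 : ℝ) < J := by exact_mod_cast hJ
    have hl : 0 ≤ Real.log J := Real.log_nonneg (by exact_mod_cast hJ)
    rw [log_DJ hJ, div_le_iff₀ hJ0]
    have h4 := yJ_le J
    have h5 := log_four_le
    have h6 : (0 : ℝ) ≤ yJ J := Nat.cast_nonneg _
    have h7 : (yJ J : ℝ) * Real.log 4 ≤ J * Real.exp (-Real.sqrt (Real.log J)) * (3 / 2) := by
      have h8 : 0 ≤ Real.log 4 := Real.log_nonneg (by norm_num)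
      exact mul_le_mul h4 h5 h8 (by positivity)
    calc (Real.log J) ^ 2 * (yJ J * Real.log 4 + 12 * Real.log J) ≤
        (Real.log J) ^ 2 * (J * Real.exp (-Real.sqrt (Real.log J)) * (3 / 2) + 12 * Real.log J) := by
          gcongr
      _ = (3 / 2 * ((Real.log J) ^ 2 * Real.exp (-Real.sqrt (Real.log J))) +
          12 * ((Real.log J) ^ 3 / J)) * J := by
          field_simp

/-- Polynomial times exponential. -/
lemma tendsto_poly_exp (c : ℝ) :
    Tendsto (fun J : ℕ => c * (((J : ℝ) + 1) ^ 6 * Real.exp (-(J : ℝ) / 50))) atTop (𝓝 0) := by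
  have h1 : Tendsto (fun x : ℝ => x ^ 6 * Real.exp (-x)) atTop (𝓝 0) :=
    Real.tendsto_pow_mul_exp_neg_atTop_nhds_zero 6
  have h2 : Tendsto (fun J : ℕ => ((J : ℝ) + 1) / 50) atTop atTop :=
    (tendsto_atTop_add_const_right _ _ tendsto_natCast_atTop_atTop).atTop_div_const (by norm_num)
  have h3 := (h1.comp h2).const_mul (c * 50 ^ 6 * Real.exp (1 / 50))
  rw [mul_zero] at h3
  refine h3.congr fun J => ?_
  simp only [Function.comp_apply]
  have h4 : Real.exp (-(((J : ℝ) + 1) / 50)) = Real.exp (-(J : ℝ) / 50) * Real.exp (-(1 / 50)) := by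
    rw [← Real.exp_add]; congr 1; ring
  rw [h4]
  have h5 : Real.exp (1 / 50) * Real.exp (-(1 / 50)) = 1 := by
    rw [← Real.exp_add]; norm_num
  calc c * 50 ^ 6 * Real.exp (1 / 50) * ((((J : ℝ) + 1) / 50) ^ 6 *
      (Real.exp (-(J : ℝ) / 50) * Real.exp (-(1 / 50)))) =
      c * (((J : ℝ) + 1) ^ 6 * Real.exp (-(J : ℝ) / 50)) *
        (Real.exp (1 / 50) * Real.exp (-(1 / 50))) := by ring
    _ = _ := by rw [h5, mul_one]

/-- The decay beats any power of `J`. -/
lemma decay {κ C : ℝ} (hκ : 0 < κ) (hC : 0 < C) :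
    ∀ᶠ J : ℕ in atTop, ((J : ℝ) + 1) ^ 6 *
      ((Real.log (DJ J)) ^ C * (1 + κ / Real.log (DJ J)) ^ (-((J / 12 : ℕ) : ℝ))) ≤ 64 / J := by
  have h1 := tendsto_log_sq_DJ.eventually_le_const (show (0 : ℝ) < κ / (48 * (C + 7)) by positivity)
  have hlogD : Tendsto (fun J : ℕ => Real.log (DJ J)) atTop atTop :=
    (Real.tendsto_log_atTop.comp tendsto_natCast_atTop_atTop).comp tendsto_DJ
  have hlogJ : Tendsto (fun J : ℕ => Real.log J) atTop atTop :=
    Real.tendsto_log_atTop.comp tendsto_natCast_atTop_atTop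
  have h0 := tendsto_log_sq_DJ.eventually_le_const (show (0 : ℝ) < 1 by norm_num)
  filter_upwards [h0, h1, hlogD.eventually_ge_atTop (max 1 κ), hlogJ.eventually_ge_atTop 1,
    eventually_ge_atTop 24] with J h0 h1 h2 h3 hJ
  set l := Real.log (DJ J) with hl
  have hl1 : 1 ≤ l := (le_max_left _ _).trans h2
  have hlκ : κ ≤ l := (le_max_right _ _).trans h2
  have hl0 : 0 < l := by linarith
  have hJ1 : (24 : ℝ) ≤ J := by exact_mod_cast hJ
  have hJ0 : (0 : ℝ) < J := by linarith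
  rw [div_le_iff₀ hJ0] at h0 h1
  have hC7 : 0 < 48 * (C + 7) := by positivity
  have hsq : 1 ≤ (Real.log J) ^ 2 := one_le_pow₀ h3
  have hlJ : l ≤ J := by
    have h4 : 1 * l ≤ (Real.log J) ^ 2 * l := mul_le_mul_of_nonneg_right hsq hl0.le
    linarith
  -- the decay
  have h5 : (48 * (C + 7)) * (Real.log J * l) ≤ κ * J := by
    have h6 : Real.log J * l ≤ (Real.log J) ^ 2 * l := by
      refine mul_le_mul_of_nonneg_right ?_ hl0.le
      nlinarith
    calc (48 * (C + 7)) * (Real.log J * l) ≤ (48 * (C + 7)) * (κ / (48 * (C + 7)) * J) := by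
          refine mul_le_mul_of_nonneg_left (h6.trans h1) hC7.le
      _ = κ * J := by field_simp
  have hn : (J : ℝ) / 24 ≤ ((J / 12 : ℕ) : ℝ) := by
    have h6 : J ≤ 24 * (J / 12) := by omega
    have h7 : (J : ℝ) ≤ 24 * ((J / 12 : ℕ) : ℝ) := by exact_mod_cast h6
    linarith
  have hx0 : 0 < κ / l := by positivity
  have hx1 : κ / l ≤ 1 := by rw [div_le_one hl0]; exact hlκ
  have hlog : κ / (2 * l) ≤ Real.log (1 + κ / l) := by
    have h6 := Real.one_sub_inv_le_log_of_pos (x := 1 + κ / l) (by positivity)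
    have h7 : κ / (2 * l) ≤ 1 - (1 + κ / l)⁻¹ := by
      have h8 : 1 - (1 + κ / l)⁻¹ = κ / l / (1 + κ / l) := by
        field_simp
        ring
      rw [h8, le_div_iff₀ (by positivity)]
      have h9 : κ / (2 * l) = κ / l / 2 := by field_simp
      rw [h9]
      nlinarith
    linarith
  have h6 : (1 + κ / l) ^ (-((J / 12 : ℕ) : ℝ)) ≤ (J : ℝ) ^ (-(C + 7)) := by
    rw [Real.rpow_def_of_pos (by positivity), Real.rpow_def_of_pos hJ0]
    apply Real.exp_le_exp.mpr
    have h7 : (J : ℝ) / 24 * (κ / (2 * l)) ≤ ((J / 12 : ℕ) : ℝ) * Real.log (1 + κ / l) :=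
      mul_le_mul hn hlog (by positivity) (Nat.cast_nonneg _)
    have h8 : Real.log J * (C + 7) ≤ (J : ℝ) / 24 * (κ / (2 * l)) := by
      have h9 : (J : ℝ) / 24 * (κ / (2 * l)) = κ * J / (48 * l) := by
        field_simp
        ring
      rw [h9, le_div_iff₀ (by positivity)]
      linarith
    linarith
  have h7 : l ^ C ≤ (J : ℝ) ^ C := Real.rpow_le_rpow hl0.le hlJ hC.le
  have h8 : ((J : ℝ) + 1) ^ 6 ≤ 64 * (J : ℝ) ^ 6 := by
    calc ((J : ℝ) + 1) ^ 6 ≤ (2 * (J : ℝ)) ^ 6 := by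
          apply pow_le_pow_left₀ (by positivity)
          linarith
      _ = 64 * (J : ℝ) ^ 6 := by ring
  calc ((J : ℝ) + 1) ^ 6 * (l ^ C * (1 + κ / l) ^ (-((J / 12 : ℕ) : ℝ))) ≤
      (64 * (J : ℝ) ^ 6) * ((J : ℝ) ^ C * (J : ℝ) ^ (-(C + 7))) := by gcongr
    _ = 64 * ((J : ℝ) ^ 6 * (J : ℝ) ^ (-7 : ℝ)) := by
        rw [← Real.rpow_add hJ0]
        have : C + -(C + 7) = -7 := by ring
        rw [this]; ring
    _ = 64 / J := by
        rw [Real.rpow_neg hJ0.le, show (7 : ℝ) = ((7 : ℕ) : ℝ) by norm_num, Real.rpow_natCast]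
        field_simp

end Pool.Agent.Helper99.MT2
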