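import Mathlib

/-!
A truncated identity for power series (Heath-Brown's identity) and its majorization.
-/

open Finset

namespace Pool.Agent.Helper99.MT2

open PowerSeries (coeff)

/-- Coefficients of index `< n`. -/
noncomputable def lo (n : ℕ) (P : PowerSeries ℂ) : PowerSeries ℂ :=
  PowerSeries.mk fun i => if i < n then coeff i P else 0

/-- Coefficients of index `≥ n`. -/
noncomputable def hi (n : ℕ) (P : PowerSeries ℂ) : PowerSeries ℂ :=
  PowerSeries.mk fun i => if i < n then 0 else coeff i P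

lemma coeff_lo (n i : ℕ) (P : PowerSeries ℂ) :
    coeff i (lo n P) = if i < n then coeff i P else 0 := by
  unfold lo; rw [PowerSeries.coeff_mk]

lemma coeff_hi (n i : ℕ) (P : PowerSeries ℂ) :
    coeff i (hi n P) = if i < n then 0 else coeff i P := by
  unfold hi; rw [PowerSeries.coeff_mk]

lemma lo_add_hi (n : ℕ) (P : PowerSeries ℂ) : lo n P + hi n P = P := by
  ext i
  rw [map_add, coeff_lo, coeff_hi]
  split_ifs <;> simp

/-- All coefficients of index `> a` vanish. -/
def Deg (P : PowerSeries ℂ) (a : ℕ) : Prop := ∀ i, a < i → coeff i P = 0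

/-- All coefficients of index `< a` vanish. -/
def Ord (P : PowerSeries ℂ) (a : ℕ) : Prop := ∀ i, i < a → coeff i P = 0

lemma Deg.mul {P Q : PowerSeries ℂ} {a b : ℕ} (hP : Deg P a) (hQ : Deg Q b) :
    Deg (P * Q) (a + b) := by
  intro i hi
  rw [PowerSeries.coeff_mul]
  refine Finset.sum_eq_zero fun p hp => ?_
  rw [Finset.HasAntidiagonal.mem_antidiagonal] at hp
  rcases lt_or_ge a p.1 with h | h
  · rw [hP _ h, zero_mul]
  · rw [hQ _ (by omega), mul_zero]

lemma Ord.mul {P Q : PowerSeries ℂ} {a b : ℕ} (hP : Ord P a) (hQ : Ord Q b) :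
    Ord (P * Q) (a + b) := by
  intro i hi
  rw [PowerSeries.coeff_mul]
  refine Finset.sum_eq_zero fun p hp => ?_
  rw [Finset.HasAntidiagonal.mem_antidiagonal] at hp
  rcases lt_or_ge p.1 a with h | h
  · rw [hP _ h, zero_mul]
  · rw [hQ _ (by omega), mul_zero]

lemma Ord.mul_left {P Q : PowerSeries ℂ} {a : ℕ} (hP : Ord P a) : Ord (Q * P) a := by
  have h : Ord Q 0 := fun i hi => absurd hi (Nat.not_lt_zero _)
  have := h.mul hP
  rwa [zero_add] at this

lemma deg_lo {n : ℕ} (hn : 1 ≤ n) (P : PowerSeries ℂ) : Deg (lo n P) (n - 1) := by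
  intro i hi
  rw [coeff_lo, if_neg (by omega)]

lemma ord_hi (n : ℕ) (P : PowerSeries ℂ) : Ord (hi n P) n := by
  intro i hi
  rw [coeff_hi, if_pos hi]

/-- The truncated identity. -/
lemma hb_identity {L N D : PowerSeries ℂ} (hLN : L * N = 1) {m J : ℕ} (hJ : J < 3 * m) :
    coeff J (D * N) = 3 * coeff J (D * lo m N) - 3 * coeff J (D * L * (lo m N * lo m N)) +
      coeff J (D * (L * L) * (lo m N * lo m N * lo m N)) := by
  set T := lo m N with hT
  have h1 : 1 - L * T = L * hi m N := by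
    rw [← hLN, hT, ← mul_sub]
    congr 1
    nth_rewrite 1 [← lo_add_hi m N]
    ring
  have h2 : Ord (1 - L * T) m := by
    rw [h1]; exact (ord_hi m N).mul_left
  have h3 : Ord (D * N * ((1 - L * T) * ((1 - L * T) * (1 - L * T)))) (m + (m + m)) :=
    (h2.mul (h2.mul h2)).mul_left
  have h4 : D * N = (D * N * ((1 - L * T) * ((1 - L * T) * (1 - L * T)))) +
      (3 * (D * T) - 3 * (D * L * (T * T)) + D * (L * L) * (T * T * T)) := by
    have h5 : D * N * ((1 - L * T) * ((1 - L * T) * (1 - L * T))) =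
      D * N - 3 * (D * T * (L * N)) + 3 * (D * L * (T * T) * (L * N)) -
        D * (L * L) * (T * T * T) * (L * N) := by ring
    rw [h5, hLN]
    ring
  have h6 : ∀ Q : PowerSeries ℂ, coeff J (3 * Q) = 3 * coeff J Q := by
    intro Q
    rw [show (3 : PowerSeries ℂ) = PowerSeries.C (3 : ℂ) by
      rw [map_ofNat], PowerSeries.coeff_C_mul]
  rw [h4, map_add, h3 J (by omega), zero_add, map_add, map_sub, h6, h6]

/-- Coefficients up to `J` are bounded by `b`. -/
def Bd (J : ℕ) (P : PowerSeries ℂ) (b : ℝ) : Prop := ∀ i, i ≤ J → ‖coeff i P‖ ≤ b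

lemma Bd.nonneg {J : ℕ} {P : PowerSeries ℂ} {b : ℝ} (h : Bd J P b) : 0 ≤ b :=
  (norm_nonneg _).trans (h 0 (Nat.zero_le _))

lemma Bd.mono {J : ℕ} {P : PowerSeries ℂ} {b b' : ℝ} (h : Bd J P b) (hb : b ≤ b') : Bd J P b' :=
  fun i hi => (h i hi).trans hb

lemma Bd.mul {J : ℕ} {P Q : PowerSeries ℂ} {p q : ℝ} (hP : Bd J P p) (hQ : Bd J Q q) :
    Bd J (P * Q) ((J + 1) * (p * q)) := by
  intro i hi
  rw [PowerSeries.coeff_mul]
  refine (norm_sum_le _ _).trans ?_
  have hp := hP.nonneg
  have hq := hQ.nonneg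
  calc ∑ x ∈ antidiagonal i, ‖coeff x.1 P * coeff x.2 Q‖ ≤ ∑ x ∈ antidiagonal i, p * q := by
        refine Finset.sum_le_sum fun x hx => ?_
        rw [Finset.HasAntidiagonal.mem_antidiagonal] at hx
        rw [norm_mul]
        exact mul_le_mul (hP _ (by omega)) (hQ _ (by omega)) (norm_nonneg _) hp
    _ = (i + 1) * (p * q) := by
        rw [Finset.sum_const, Finset.Nat.card_antidiagonal, nsmul_eq_mul]
        push_cast; ring
    _ ≤ (J + 1) * (p * q) := by
        have : (i : ℝ) ≤ J := by exact_mod_cast hi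
        have h0 : 0 ≤ p * q := mul_nonneg hp hq
        nlinarith

/-- Sum of the absolute values of the coefficients up to `J`. -/
noncomputable def SS1 (J : ℕ) (P : PowerSeries ℂ) : ℝ := ∑ i ∈ range (J + 1), ‖coeff i P‖

lemma SS1_nonneg (J : ℕ) (P : PowerSeries ℂ) : 0 ≤ SS1 J P :=
  Finset.sum_nonneg fun _ _ => norm_nonneg _

lemma SS1_mul_le (J : ℕ) (P Q : PowerSeries ℂ) : SS1 J (P * Q) ≤ SS1 J P * SS1 J Q := by
  unfold SS1
  rw [Finset.sum_mul_sum, ← Finset.sum_product']
  calc ∑ i ∈ range (J + 1), ‖coeff i (P * Q)‖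
      ≤ ∑ i ∈ range (J + 1), ∑ x ∈ antidiagonal i, ‖coeff x.1 P‖ * ‖coeff x.2 Q‖ := by
        refine Finset.sum_le_sum fun i _ => ?_
        rw [PowerSeries.coeff_mul]
        refine (norm_sum_le _ _).trans (le_of_eq ?_)
        exact Finset.sum_congr rfl fun x _ => norm_mul _ _
    _ = ∑ x ∈ (range (J + 1)).sigma (fun i => antidiagonal i), ‖coeff x.2.1 P‖ * ‖coeff x.2.2 Q‖ := by
        rw [Finset.sum_sigma]
    _ = ∑ y ∈ ((range (J + 1)) ×ˢ (range (J + 1))).filter (fun y => y.1 + y.2 ≤ J),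
          ‖coeff y.1 P‖ * ‖coeff y.2 Q‖ := by
        refine Finset.sum_bij' (fun x _ => x.2) (fun y _ => ⟨y.1 + y.2, y⟩) ?_ ?_ ?_ ?_ ?_
        · rintro ⟨i, a, b⟩ hx
          rw [Finset.mem_sigma, Finset.mem_range, Finset.HasAntidiagonal.mem_antidiagonal] at hx
          simp only at hx
          rw [Finset.mem_filter, Finset.mem_product, Finset.mem_range, Finset.mem_range]
          simp only
          omega
        · rintro ⟨a, b⟩ hy
          rw [Finset.mem_filter, Finset.mem_product, Finset.mem_range, Finset.mem_range] at hy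
          simp only at hy
          rw [Finset.mem_sigma, Finset.mem_range, Finset.HasAntidiagonal.mem_antidiagonal]
          exact ⟨by show a + b < J + 1; omega, rfl⟩
        · rintro ⟨i, a, b⟩ hx
          rw [Finset.mem_sigma, Finset.mem_range, Finset.HasAntidiagonal.mem_antidiagonal] at hx
          simp only at hx
          obtain ⟨-, rfl⟩ := hx
          rfl
        · rintro ⟨a, b⟩ _
          rfl
        · rintro ⟨i, a, b⟩ _
          rfl
    _ ≤ _ := by
        refine Finset.sum_le_sum_of_subset_of_nonneg (Finset.filter_subset _ _) fun x _ _ => ?_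
        exact mul_nonneg (norm_nonneg _) (norm_nonneg _)

lemma norm_coeff_mul_le {J : ℕ} {P Q : PowerSeries ℂ} {p : ℝ} (hP : Bd J P p) :
    ‖coeff J (P * Q)‖ ≤ p * SS1 J Q := by
  rw [PowerSeries.coeff_mul]
  refine (norm_sum_le _ _).trans ?_
  rw [Finset.Nat.sum_antidiagonal_eq_sum_range_succ (fun a b => ‖coeff a P * coeff b Q‖)]
  rw [← Finset.sum_range_reflect]
  unfold SS1
  rw [Finset.mul_sum]
  refine Finset.sum_le_sum fun i hi => ?_
  rw [Finset.mem_range] at hi
  rw [norm_mul]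
  have h1 : J - (J + 1 - 1 - i) = i := by omega
  rw [h1]
  exact mul_le_mul_of_nonneg_right (hP _ (by omega)) (norm_nonneg _)

lemma Bd.lo {J n : ℕ} {P : PowerSeries ℂ} {b : ℝ} (h : Bd J P b) : Bd J (lo n P) b := by
  intro i hi
  rw [coeff_lo]
  split_ifs
  · exact h i hi
  · rw [norm_zero]; exact h.nonneg

lemma coeff_eq_zero_of_deg {P : PowerSeries ℂ} {a J : ℕ} (h : Deg P a) (ha : a < J) :
    coeff J P = 0 := h J ha

/-- Majorization of a coefficient of `D * N` when `L * N = 1`. -/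
theorem hb_bound {L N D : PowerSeries ℂ} (hLN : L * N = 1) {J n : ℕ} (hn : 1 ≤ n)
    (hnJ : 12 * n ≤ J) {B q : ℝ} (hB : 1 ≤ B)
    (hLB : Bd J L B) (hNB : Bd J N B) (hDB : Bd J D ((J + 1) * B))
    (hLq : Bd J (hi n L) q) (hDq : Bd J (hi n D) ((J + 1) * q)) :
    ‖coeff J (D * N)‖ ≤ 12 * ((J + 1) ^ 6 * (B ^ 5 * q)) +
      (J + 1) ^ 3 * B ^ 3 * (∑ c ∈ (range (J / 3 + 1)).filter (fun c => n ≤ c), ‖coeff c N‖) ^ 3 := by
  set m := J / 3 + 1 with hm
  set T := lo m N with hT
  have hJ1 : (1 : ℝ) ≤ J + 1 := by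
    have := Nat.cast_nonneg (α := ℝ) J
    linarith
  have hJ0 : (0 : ℝ) ≤ J + 1 := by linarith
  have hB0 : 0 ≤ B := by linarith
  have hq : 0 ≤ q := hLq.nonneg
  have hTB : Bd J T B := hNB.lo
  have dT : Deg T (J / 3) := by
    have := deg_lo (n := m) (by omega) N
    rwa [hm, Nat.add_sub_cancel] at this
  have dL : Deg (lo n L) (n - 1) := deg_lo hn L
  have dD : Deg (lo n D) (n - 1) := deg_lo hn D
  have dT0 : Deg (lo n T) (n - 1) := deg_lo hn T
  have pw : ∀ a b : ℕ, a ≤ b → ((J : ℝ) + 1) ^ a ≤ (J + 1) ^ b :=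
    fun a b h => pow_le_pow_right₀ hJ1 h
  have pb : ∀ a b : ℕ, a ≤ b → B ^ a ≤ B ^ b := fun a b h => pow_le_pow_right₀ hB h
  -- the first monomial
  have e1 : ‖coeff J (D * T)‖ ≤ (J + 1) ^ 6 * (B ^ 5 * q) := by
    have h1 : D * T = lo n D * T + hi n D * T := by
      nth_rewrite 1 [← lo_add_hi n D]; ring
    rw [h1, map_add, coeff_eq_zero_of_deg (dD.mul dT) (by omega), zero_add]
    refine ((hDq.mul hTB) J le_rfl).trans ?_
    calc ((J : ℝ) + 1) * ((J + 1) * q * B) = (J + 1) ^ 2 * (B ^ 1 * q) := by ring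
      _ ≤ (J + 1) ^ 6 * (B ^ 5 * q) :=
        mul_le_mul (pw _ _ (by norm_num)) (mul_le_mul_of_nonneg_right (pb _ _ (by norm_num)) hq)
          (by positivity) (by positivity)
  -- the second monomial
  have e2 : ‖coeff J (D * L * (T * T))‖ ≤ 2 * ((J + 1) ^ 6 * (B ^ 5 * q)) := by
    have h1 : D * L * (T * T) = lo n D * lo n L * (T * T) + (hi n D * L * (T * T) +
        lo n D * hi n L * (T * T)) := by
      nth_rewrite 1 [← lo_add_hi n D]
      have : (lo n D + hi n D) * L * (T * T) = lo n D * L * (T * T) + hi n D * L * (T * T) := by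
        ring
      rw [this]
      have h2 : lo n D * L * (T * T) = lo n D * lo n L * (T * T) + lo n D * hi n L * (T * T) := by
        nth_rewrite 1 [← lo_add_hi n L]; ring
      rw [h2]; ring
    rw [h1, map_add, coeff_eq_zero_of_deg ((dD.mul dL).mul (dT.mul dT)) (by omega), zero_add,
      map_add]
    refine (norm_add_le _ _).trans ?_
    have h3 := ((hDq.mul hLB).mul (hTB.mul hTB)) J le_rfl
    have h4 := (((hDB.lo (n := n)).mul hLq).mul (hTB.mul hTB)) J le_rfl
    have h5 : ((J : ℝ) + 1) * ((J + 1) * ((J + 1) * q * B) * ((J + 1) * (B * B))) ≤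
        (J + 1) ^ 6 * (B ^ 5 * q) := by
      calc ((J : ℝ) + 1) * ((J + 1) * ((J + 1) * q * B) * ((J + 1) * (B * B))) =
          (J + 1) ^ 4 * (B ^ 3 * q) := by ring
        _ ≤ _ := mul_le_mul (pw _ _ (by norm_num))
          (mul_le_mul_of_nonneg_right (pb _ _ (by norm_num)) hq) (by positivity) (by positivity)
    have h6 : ((J : ℝ) + 1) * ((J + 1) * ((J + 1) * B * q) * ((J + 1) * (B * B))) ≤
        (J + 1) ^ 6 * (B ^ 5 * q) := by
      refine le_trans (le_of_eq ?_) h5
      ring
    linarith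
  -- the third monomial
  have e3 : ‖coeff J (D * (L * L) * (T * T * T))‖ ≤ 3 * ((J + 1) ^ 6 * (B ^ 5 * q)) +
      (J + 1) ^ 3 * B ^ 3 * (SS1 J (hi n T)) ^ 3 := by
    have h1 : D * (L * L) * (T * T * T) =
        lo n D * (lo n L * lo n L) * (T * T * T) + (hi n D * (L * L) * (T * T * T) +
        lo n D * (hi n L * L) * (T * T * T) + lo n D * (lo n L * hi n L) * (T * T * T)) := by
      have h2 : ∀ Z : PowerSeries ℂ, D * Z = lo n D * Z + hi n D * Z := fun Z => by
        rw [← add_mul, lo_add_hi]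
      have h3 : ∀ Z : PowerSeries ℂ, L * Z = lo n L * Z + hi n L * Z := fun Z => by
        rw [← add_mul, lo_add_hi]
      have h4 : L * L = lo n L * lo n L + lo n L * hi n L + hi n L * L := by
        have h5 : lo n L * L = lo n L * lo n L + lo n L * hi n L := by
          rw [← mul_add, lo_add_hi]
        rw [← h5]; exact h3 L
      have h5 : D * (L * L) = lo n D * (L * L) + hi n D * (L * L) := h2 _
      rw [h5, add_mul]
      nth_rewrite 1 [h4]
      ring
    have h2 : coeff J (lo n D * (lo n L * lo n L) * (T * T * T)) =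
        coeff J (lo n D * (lo n L * lo n L) * (hi n T * hi n T * hi n T)) := by
      have h3 : lo n D * (lo n L * lo n L) * (T * T * T) =
          lo n D * (lo n L * lo n L) * (hi n T * hi n T * hi n T) +
          (lo n D * (lo n L * lo n L) * (lo n T * (T * T)) +
           lo n D * (lo n L * lo n L) * (lo n T * (hi n T * T)) +
           lo n D * (lo n L * lo n L) * (lo n T * (hi n T * hi n T))) := by
        have h4 : T * T * T = hi n T * hi n T * hi n T + (lo n T * (T * T) +
            lo n T * (hi n T * T) + lo n T * (hi n T * hi n T)) := by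
          have h5 : T = lo n T + hi n T := (lo_add_hi n T).symm
          generalize lo n T = a at h5 ⊢
          generalize hi n T = b at h5 ⊢
          rw [h5]; ring
        rw [h4]; ring
      have dhT : Deg (hi n T) (J / 3) := by
        intro i hi'
        rw [coeff_hi, dT i hi']
        split_ifs <;> rfl
      rw [h3, map_add, map_add, map_add,
        coeff_eq_zero_of_deg ((dD.mul (dL.mul dL)).mul (dT0.mul (dT.mul dT))) (by omega),
        coeff_eq_zero_of_deg ((dD.mul (dL.mul dL)).mul (dT0.mul (dhT.mul dT))) (by omega),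
        coeff_eq_zero_of_deg ((dD.mul (dL.mul dL)).mul (dT0.mul (dhT.mul dhT))) (by omega)]
      ring
    rw [h1, map_add, h2, map_add, map_add]
    have h3 := ((hDq.mul (hLB.mul hLB)).mul ((hTB.mul hTB).mul hTB)) J le_rfl
    have h4 := (((hDB.lo (n := n)).mul (hLq.mul hLB)).mul ((hTB.mul hTB).mul hTB)) J le_rfl
    have h5 := (((hDB.lo (n := n)).mul ((hLB.lo (n := n)).mul hLq)).mul
      ((hTB.mul hTB).mul hTB)) J le_rfl
    have h6 : ((J : ℝ) + 1) * ((J + 1) * ((J + 1) * q * ((J + 1) * (B * B))) *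
        ((J + 1) * ((J + 1) * (B * B) * B))) = (J + 1) ^ 6 * (B ^ 5 * q) := by ring
    have h7 : ((J : ℝ) + 1) * ((J + 1) * ((J + 1) * B * ((J + 1) * (q * B))) *
        ((J + 1) * ((J + 1) * (B * B) * B))) = (J + 1) ^ 6 * (B ^ 5 * q) := by ring
    have h8 : ((J : ℝ) + 1) * ((J + 1) * ((J + 1) * B * ((J + 1) * (B * q))) *
        ((J + 1) * ((J + 1) * (B * B) * B))) = (J + 1) ^ 6 * (B ^ 5 * q) := by ring
    rw [h6] at h3
    rw [h7] at h4
    rw [h8] at h5
    have h9 : ‖coeff J (lo n D * (lo n L * lo n L) * (hi n T * hi n T * hi n T))‖ ≤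
        (J + 1) ^ 3 * B ^ 3 * (SS1 J (hi n T)) ^ 3 := by
      refine (norm_coeff_mul_le ((hDB.lo (n := n)).mul ((hLB.lo (n := n)).mul
        (hLB.lo (n := n))))).trans ?_
      have h10 : SS1 J (hi n T * hi n T * hi n T) ≤ (SS1 J (hi n T)) ^ 3 := by
        calc SS1 J (hi n T * hi n T * hi n T) ≤ SS1 J (hi n T * hi n T) * SS1 J (hi n T) :=
              SS1_mul_le _ _ _
          _ ≤ (SS1 J (hi n T) * SS1 J (hi n T)) * SS1 J (hi n T) :=
              mul_le_mul_of_nonneg_right (SS1_mul_le _ _ _) (SS1_nonneg _ _)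
          _ = _ := by ring
      calc _ ≤ ((J : ℝ) + 1) * ((J + 1) * B * ((J + 1) * (B * B))) * (SS1 J (hi n T)) ^ 3 :=
            mul_le_mul_of_nonneg_left h10 (by positivity)
        _ = _ := by ring
    refine (norm_add_le _ _).trans ?_
    have h10 := norm_add_le (coeff J (hi n D * (L * L) * (T * T * T)) +
      coeff J (lo n D * (hi n L * L) * (T * T * T))) (coeff J (lo n D * (lo n L * hi n L) *
        (T * T * T)))
    have h11 := norm_add_le (coeff J (hi n D * (L * L) * (T * T * T)))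
      (coeff J (lo n D * (hi n L * L) * (T * T * T)))
    linarith
  have e4 : SS1 J (hi n T) = ∑ c ∈ (range m).filter (fun c => n ≤ c), ‖coeff c N‖ := by
    unfold SS1
    rw [Finset.sum_filter]
    symm
    refine Finset.sum_subset_zero_on_sdiff (Finset.range_mono (by omega)) ?_ ?_
    · intro c hc
      rw [Finset.mem_sdiff, Finset.mem_range, Finset.mem_range, not_lt] at hc
      rw [coeff_hi, hT, coeff_lo, if_neg (by omega : ¬ c < m)]
      split_ifs <;> simp
    · intro c hc
      rw [Finset.mem_range] at hc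
      rw [coeff_hi, hT, coeff_lo, if_pos hc]
      by_cases h : n ≤ c
      · rw [if_pos h, if_neg (by omega)]
      · rw [if_neg h, if_pos (by omega), norm_zero]
  rw [hb_identity hLN (m := m) (by omega), ← hT, ← e4]
  have h1 := norm_add_le (3 * coeff J (D * T) - 3 * coeff J (D * L * (T * T)))
    (coeff J (D * (L * L) * (T * T * T)))
  have h2 := norm_sub_le (3 * coeff J (D * T)) (3 * coeff J (D * L * (T * T)))
  rw [norm_mul, norm_mul] at h2
  have h3 : ‖(3 : ℂ)‖ = 3 := by norm_num
  rw [h3] at h2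
  linarith

end Pool.Agent.Helper99.MT2
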