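import Mathlib
import Pool.Agent.Helper99.MT2.HB
import Pool.Agent.Helper11.MT.LargeChars

/-!
The transforms as power series, and the mean value estimate over the family.
-/

open Finset

namespace Pool.Agent.Helper99.MT2

open Pool.Agent.Helper11.MT
open PowerSeries (coeff)
open ArithmeticFunction (vonMangoldt)

/-- The generating series of the transforms. -/
noncomputable def PS (ξ : ℕ → ℂ) (f : ℕ → ℝ) : PowerSeries ℂ :=
  PowerSeries.mk fun i => MM ξ i f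

lemma coeff_PS (ξ : ℕ → ℂ) (f : ℕ → ℝ) (i : ℕ) : coeff i (PS ξ f) = MM ξ i f := by
  unfold PS; rw [PowerSeries.coeff_mk]

lemma PS_mul {ξ : ℕ → ℂ} (hξ : ∀ n, ‖ξ n‖ ≤ 1) (hmul : ∀ a b, ξ (a * b) = ξ a * ξ b)
    {f g : ArithmeticFunction ℝ} (hf : Good f) (hg : Good g) :
    PS ξ (f * g : ArithmeticFunction ℝ) = PS ξ f * PS ξ g := by
  ext J
  rw [coeff_PS, PowerSeries.coeff_mul, MM_conv hξ hmul hf hg]
  refine Finset.sum_congr rfl fun p _ => ?_
  rw [coeff_PS, coeff_PS]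

lemma w_one (i : ℕ) : w i 1 = if i = 0 then 1 else 0 := by
  unfold w
  split_ifs with h
  · rw [h]; simp
  · simp [h]

lemma PS_one {ξ : ℕ → ℂ} (h1 : ξ 1 = 1) : PS ξ (1 : ArithmeticFunction ℝ) = 1 := by
  ext J
  rw [coeff_PS, PowerSeries.coeff_one]
  unfold MM
  rw [tsum_eq_single 1]
  · rw [ArithmeticFunction.one_apply, if_pos rfl, h1, w_one]
    split_ifs <;> simp
  · intro n hn
    rw [ArithmeticFunction.one_apply, if_neg hn]
    simp

lemma PS_z_mul_mu {ξ : ℕ → ℂ} (hξ : ∀ n, ‖ξ n‖ ≤ 1) (hmul : ∀ a b, ξ (a * b) = ξ a * ξ b)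
    (h1 : ξ 1 = 1) : PS ξ zR * PS ξ muR = 1 := by
  rw [← PS_mul hξ hmul good_zR good_muR, ← PS_one h1]
  congr 2
  exact ArithmeticFunction.coe_zeta_mul_coe_moebius

lemma PS_vM {ξ : ℕ → ℂ} (hξ : ∀ n, ‖ξ n‖ ≤ 1) (hmul : ∀ a b, ξ (a * b) = ξ a * ξ b) :
    PS ξ (vonMangoldt : ArithmeticFunction ℝ) =
      PS ξ (ArithmeticFunction.log : ArithmeticFunction ℝ) * PS ξ muR := by
  rw [← PS_mul hξ hmul good_log good_muR]
  congr 2
  exact ArithmeticFunction.log_mul_moebius_eq_vonMangoldt.symm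

lemma norm_MM_le {ξ : ℕ → ℂ} (hξ : ∀ n, ‖ξ n‖ ≤ 1) {f : ℕ → ℝ} (hf : ∀ n, |f n| ≤ 1) {B : ℝ}
    (hB : ∀ i : ℕ, ∑' n, w i n ≤ B) (i : ℕ) : ‖MM ξ i f‖ ≤ B := by
  unfold MM
  refine le_trans ?_ (hB i)
  refine tsum_of_norm_bounded (summable_w i).hasSum fun n => ?_
  rw [norm_mul, norm_mul, Complex.norm_real, Complex.norm_real, Real.norm_eq_abs, Real.norm_eq_abs,
    abs_of_nonneg (w_nonneg _ _)]
  refine mul_le_of_le_one_left (w_nonneg _ _) ?_
  exact mul_le_one₀ (hf n) (norm_nonneg _) (hξ n)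

lemma abs_zR_le (n : ℕ) : |zR n| ≤ 1 := by
  rw [zR_apply]
  split_ifs <;> simp

lemma MM_log (ξ : ℕ → ℂ) (i : ℕ) :
    MM ξ i (ArithmeticFunction.log : ArithmeticFunction ℝ) = ((i : ℂ) + 1) * MM ξ (i + 1) zR := by
  unfold MM
  rw [← tsum_mul_left]
  refine tsum_congr fun n => ?_
  rw [ArithmeticFunction.log_apply, zR_apply]
  have h := log_mul_w i n
  rcases Nat.eq_zero_or_pos n with rfl | hn
  · simp
  · rw [if_neg (by omega)]
    have h2 : ((Real.log n * w i n : ℝ) : ℂ) = (((i + 1) * w (i + 1) n : ℝ) : ℂ) := by rw [h]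
    push_cast at h2
    push_cast
    linear_combination (ξ n) * h2

lemma norm_MM_z_le {ξ : ℕ → ℂ} (hξ : ∀ n, ‖ξ n‖ ≤ 1) (h0 : ξ 0 = 0) {Q : ℝ}
    (hQ : ∀ N, ‖∑ n ∈ range N, ξ n‖ ≤ Q) (i : ℕ) :
    ‖MM ξ i zR‖ ≤ 4 * Q * ((2 / 3) ^ i * K32) := by
  refine le_trans (le_of_eq ?_) (norm_tsum_psi_w hQ hξ i)
  unfold MM
  congr 1
  refine tsum_congr fun n => ?_
  rw [zR_apply]
  split_ifs with h
  · rw [h, h0]; simp
  · simp

/-- Pointwise bound for the transform of the von Mangoldt function. -/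
theorem char_bound {ξ : ℕ → ℂ} (hξ : ∀ n, ‖ξ n‖ ≤ 1) (hmul : ∀ a b, ξ (a * b) = ξ a * ξ b)
    (h1 : ξ 1 = 1) (h0 : ξ 0 = 0) {Q : ℝ} (hQ : ∀ N, ‖∑ n ∈ range N, ξ n‖ ≤ Q) {B : ℝ}
    (hB1 : 1 ≤ B) (hB : ∀ i : ℕ, ∑' n, w i n ≤ B) {J n : ℕ} (hn : 1 ≤ n) (hnJ : 12 * n ≤ J) :
    ‖MM ξ J vonMangoldt‖ ≤ 12 * ((J + 1) ^ 6 * (B ^ 5 * (4 * Q * K32 * (2 / 3) ^ n))) +
      (J + 1) ^ 3 * B ^ 3 *
        (∑ c ∈ (range (J / 3 + 1)).filter (fun c => n ≤ c), ‖MM ξ c muR‖) ^ 3 := by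
  have hQ0 : 0 ≤ Q := (norm_nonneg _).trans (hQ 0)
  have hK := K32_nonneg
  have hJ0 : (0 : ℝ) ≤ J := Nat.cast_nonneg J
  have key := hb_bound (L := PS ξ zR) (N := PS ξ muR)
    (D := PS ξ (ArithmeticFunction.log : ArithmeticFunction ℝ)) (PS_z_mul_mu hξ hmul h1) hn hnJ
    (B := B) (q := 4 * Q * K32 * (2 / 3) ^ n) hB1 ?_ ?_ ?_ ?_ ?_
  · rw [← PS_vM hξ hmul, coeff_PS] at key
    refine key.trans (le_of_eq ?_)
    congr 2
    congr 1
    refine Finset.sum_congr rfl fun c _ => ?_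
    rw [coeff_PS]
  · intro i _
    rw [coeff_PS]
    exact norm_MM_le hξ abs_zR_le hB i
  · intro i _
    rw [coeff_PS]
    exact norm_MM_le hξ abs_muR_le hB i
  · intro i hi
    rw [coeff_PS, MM_log, norm_mul]
    have h2 : ‖((i : ℂ) + 1)‖ ≤ (J : ℝ) + 1 := by
      have : ((i : ℂ) + 1) = ((i + 1 : ℕ) : ℂ) := by push_cast; ring
      rw [this, Complex.norm_natCast]
      push_cast
      have : (i : ℝ) ≤ J := by exact_mod_cast hi
      linarith
    exact mul_le_mul h2 (norm_MM_le hξ abs_zR_le hB _) (norm_nonneg _) (by linarith)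
  · intro i hi
    rw [coeff_hi, coeff_PS]
    split_ifs with h
    · rw [norm_zero]; positivity
    · refine (norm_MM_z_le hξ h0 hQ i).trans ?_
      have : (2 / 3 : ℝ) ^ i ≤ (2 / 3) ^ n :=
        pow_le_pow_of_le_one (by norm_num) (by norm_num) (by omega)
      calc 4 * Q * ((2 / 3) ^ i * K32) ≤ 4 * Q * ((2 / 3) ^ n * K32) := by gcongr
        _ = _ := by ring
  · intro i hi
    rw [coeff_hi, coeff_PS]
    split_ifs with h
    · rw [norm_zero]; positivity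
    · rw [MM_log, norm_mul]
      have h2 : ‖((i : ℂ) + 1)‖ ≤ (J : ℝ) + 1 := by
        have : ((i : ℂ) + 1) = ((i + 1 : ℕ) : ℂ) := by push_cast; ring
        rw [this, Complex.norm_natCast]
        push_cast
        have : (i : ℝ) ≤ J := by exact_mod_cast hi
        linarith
      refine mul_le_mul h2 ?_ (norm_nonneg _) (by linarith)
      refine (norm_MM_z_le hξ h0 hQ (i + 1)).trans ?_
      have : (2 / 3 : ℝ) ^ (i + 1) ≤ (2 / 3) ^ n :=
        pow_le_pow_of_le_one (by norm_num) (by norm_num) (by omega)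
      calc 4 * Q * ((2 / 3) ^ (i + 1) * K32) ≤ 4 * Q * ((2 / 3) ^ n * K32) := by gcongr
        _ = _ := by ring

lemma MM_add {ξ : ℕ → ℂ} (hξ : ∀ n, ‖ξ n‖ ≤ 1) {f g : ℕ → ℝ} (hf : Good f) (hg : Good g) (i : ℕ) :
    MM ξ i (fun n => f n + g n) = MM ξ i f + MM ξ i g := by
  unfold MM
  rw [← (hf.summable_MM hξ i).of_norm.tsum_add (hg.summable_MM hξ i).of_norm]
  refine tsum_congr fun n => ?_
  push_cast; ring

lemma sum_w_le {U : ℕ} (i : ℕ) : ∑ n ∈ range (U + 1), w i n ≤ (U : ℝ) ^ 9 / 10 ^ i := by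
  rw [Finset.sum_range_succ']
  rw [w_zero_right, add_zero]
  calc ∑ n ∈ range U, w i (n + 1) ≤ ∑ n ∈ range U, (U : ℝ) ^ 8 / 10 ^ i := by
        refine Finset.sum_le_sum fun n hn => ?_
        rw [Finset.mem_range] at hn
        refine (w_le_rpow (t := 10) (by norm_num) i (by omega : 1 ≤ n + 1)).trans ?_
        rw [show (10 - 2 : ℝ) = ((8 : ℕ) : ℝ) by norm_num, Real.rpow_natCast]
        refine div_le_div_of_nonneg_right ?_ (by positivity)
        have : ((n + 1 : ℕ) : ℝ) ≤ U := by exact_mod_cast hn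
        exact pow_le_pow_left₀ (by positivity) this 8
    _ = (U : ℝ) ^ 9 / 10 ^ i := by
        rw [Finset.sum_const, Finset.card_range, nsmul_eq_mul]; ring

lemma norm_MM_low_le {ξ : ℕ → ℂ} (hξ : ∀ n, ‖ξ n‖ ≤ 1) (U i : ℕ) :
    ‖MM ξ i (lowF U muR)‖ ≤ (U : ℝ) ^ 9 / 10 ^ i := by
  refine le_trans ?_ (sum_w_le (U := U) i)
  unfold MM
  rw [tsum_eq_sum (s := range (U + 1))]
  · refine (norm_sum_le _ _).trans (Finset.sum_le_sum fun n _ => ?_)
    rw [norm_mul, norm_mul, Complex.norm_real, Complex.norm_real, Real.norm_eq_abs,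
      Real.norm_eq_abs, abs_of_nonneg (w_nonneg _ _)]
    refine mul_le_of_le_one_left (w_nonneg _ _) ?_
    refine mul_le_one₀ ?_ (norm_nonneg _) (hξ n)
    rw [lowF_apply]
    split_ifs
    · exact abs_muR_le n
    · simp
  · intro n hn
    rw [Finset.mem_range, not_lt] at hn
    rw [lowF_apply, if_neg (by omega)]
    simp

/-- Mean value estimate for the transforms of the Moebius function. -/
theorem mu_mean {W R : ℕ} [NeZero W] {B : ℝ} (hB1 : 1 ≤ B) (hB : ∀ i : ℕ, ∑' n, w i n ≤ B)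
    {U : ℕ} (hU : 8 * W ^ 2 * R ^ 8 ≤ U) (i : ℕ) :
    ∑ x ∈ FX W R, ‖MM (xs x) i muR‖ ^ 2 ≤
      2 * ((B + 1) * B) + 2 * ((W * R ^ 4 : ℕ) * ((U : ℝ) ^ 9 / 10 ^ i) ^ 2) := by
  have h1 : ∀ x ∈ FX W R, ‖MM (xs x) i muR‖ ^ 2 ≤
      2 * ‖∑' n, ((highF U muR n : ℝ) : ℂ) * (w i n : ℂ) * xs x n‖ ^ 2 +
        2 * ((U : ℝ) ^ 9 / 10 ^ i) ^ 2 := by
    intro x _
    have hξ : ∀ n, ‖xs x n‖ ≤ 1 := norm_xs_le x
    have e1 : MM (xs x) i muR = MM (xs x) i (highF U muR) + MM (xs x) i (lowF U muR) := by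
      rw [← MM_add hξ (good_highF good_muR U) (good_lowF good_muR U)]
      congr 1
      funext n
      have := low_add_high U muR
      rw [← this, ArithmeticFunction.add_apply, this]
      ring
    have e2 : MM (xs x) i (highF U muR) =
        ∑' n, ((highF U muR n : ℝ) : ℂ) * (w i n : ℂ) * xs x n := by
      unfold MM
      refine tsum_congr fun n => ?_
      ring
    have e3 := norm_MM_low_le hξ U i
    have e4 : ‖MM (xs x) i muR‖ ≤ ‖MM (xs x) i (highF U muR)‖ + ‖MM (xs x) i (lowF U muR)‖ := by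
      rw [e1]; exact norm_add_le _ _
    rw [← e2]
    have h0 := norm_nonneg (MM (xs x) i (highF U muR))
    have h00 := norm_nonneg (MM (xs x) i (lowF U muR))
    calc ‖MM (xs x) i muR‖ ^ 2 ≤
        (‖MM (xs x) i (highF U muR)‖ + ‖MM (xs x) i (lowF U muR)‖) ^ 2 :=
          pow_le_pow_left₀ (norm_nonneg _) e4 2
      _ ≤ 2 * ‖MM (xs x) i (highF U muR)‖ ^ 2 + 2 * ‖MM (xs x) i (lowF U muR)‖ ^ 2 := by
          nlinarith [sq_nonneg (‖MM (xs x) i (highF U muR)‖ - ‖MM (xs x) i (lowF U muR)‖)]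
      _ ≤ _ := by gcongr
  have hs : Summable fun n => ‖((highF U muR n : ℝ) : ℂ)‖ ^ 2 * w i n := by
    refine Summable.of_nonneg_of_le (fun n => mul_nonneg (by positivity) (w_nonneg _ _))
      (fun n => ?_) (summable_w i)
    refine mul_le_of_le_one_left (w_nonneg _ _) ?_
    rw [Complex.norm_real, Real.norm_eq_abs, highF_apply]
    split_ifs
    · exact pow_le_one₀ (abs_nonneg _) (abs_muR_le n)
    · simp
  have h2 := mean_value (W := W) (R := R) hB1 hB hU i (fun n => ((highF U muR n : ℝ) : ℂ))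
    (fun n hn => by rw [highF_apply, if_neg (by omega)]; simp) hs
  have h3 : ∑' n, ‖((highF U muR n : ℝ) : ℂ)‖ ^ 2 * w i n ≤ B := by
    refine le_trans (Summable.tsum_le_tsum (fun n => ?_) hs (summable_w i)) (hB i)
    refine mul_le_of_le_one_left (w_nonneg _ _) ?_
    rw [Complex.norm_real, Real.norm_eq_abs, highF_apply]
    split_ifs
    · exact pow_le_one₀ (abs_nonneg _) (abs_muR_le n)
    · simp
  refine (Finset.sum_le_sum h1).trans ?_
  rw [Finset.sum_add_distrib, ← Finset.mul_sum, Finset.sum_const, nsmul_eq_mul]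
  have h4 : (#(FX W R) : ℝ) ≤ (W * R ^ 4 : ℕ) := by exact_mod_cast card_FX_le W R
  have h5 : 0 ≤ 2 * ((U : ℝ) ^ 9 / 10 ^ i) ^ 2 := by positivity
  have h6 : (B + 1) * ∑' n, ‖((highF U muR n : ℝ) : ℂ)‖ ^ 2 * w i n ≤ (B + 1) * B :=
    mul_le_mul_of_nonneg_left h3 (by linarith)
  calc 2 * ∑ x ∈ FX W R, ‖∑' n, ((highF U muR n : ℝ) : ℂ) * (w i n : ℂ) * xs x n‖ ^ 2 +
      (#(FX W R) : ℝ) * (2 * ((U : ℝ) ^ 9 / 10 ^ i) ^ 2) ≤
      2 * ((B + 1) * B) + ((W * R ^ 4 : ℕ) : ℝ) * (2 * ((U : ℝ) ^ 9 / 10 ^ i) ^ 2) :=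
        add_le_add (by linarith [h2.trans h6]) (mul_le_mul_of_nonneg_right h4 h5)
    _ = _ := by ring

end Pool.Agent.Helper99.MT2
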