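import Mathlib
import Pool.Agent.Helper99.MT2.Series
import Pool.Agent.Helper99.MT2.Statement
import Pool.Agent.Helper11.MT.PrimePowers

/-!
The weighted first moment over a family.
-/

open Finset

namespace Pool.Agent.Helper99.MT2

open Pool.Agent.Helper11.MT
open ArithmeticFunction (vonMangoldt)

lemma xs_char2 {W R : ℕ} [NeZero W] {x : Σ T : Finset ℕ, CF W T} (hx : x ∈ FX W R)
    (hne : x.1.Nonempty ∨ x.2.1 ≠ 1) :
    ∃ ψ : DirichletCharacter ℂ (W * ∏ p ∈ x.1, p), ψ ≠ 1 ∧ ∀ n : ℕ, ψ n = xs x n := by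
  obtain ⟨ψ, h1, h2, -⟩ := exists_xi_char (prime_of_TS (mem_FX.mp hx))
    (not_dvd_of_TS (mem_FX.mp hx)) x.2
  exact ⟨ψ, h2 hne, h1⟩

lemma modulus_pos {W R : ℕ} [NeZero W] {x : Σ T : Finset ℕ, CF W T} (hx : x ∈ FX W R) :
    0 < W * ∏ p ∈ x.1, p :=
  Nat.mul_pos (NeZero.pos W) (Finset.prod_pos fun p hp => (prime_of_TS (mem_FX.mp hx) p hp).pos)

lemma xs_props {W R : ℕ} [NeZero W] {x : Σ T : Finset ℕ, CF W T} (hx : x ∈ FX W R)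
    (hne : x.1.Nonempty ∨ x.2.1 ≠ 1) :
    (∀ a b, xs x (a * b) = xs x a * xs x b) ∧ xs x 1 = 1 ∧ xs x 0 = 0 ∧
      ∀ N, ‖∑ n ∈ range N, xs x n‖ ≤ ((W * R ^ 2 : ℕ) : ℝ) := by
  obtain ⟨ψ, h1, h2⟩ := xs_char2 hx hne
  have hpos := modulus_pos hx
  have hz : NeZero (W * ∏ p ∈ x.1, p) := ⟨hpos.ne'⟩
  refine ⟨fun a b => ?_, ?_, ?_, fun N => ?_⟩
  · rw [← h2, ← h2, ← h2, Nat.cast_mul, map_mul]
  · rw [← h2, Nat.cast_one, map_one]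
  · rw [← h2, Nat.cast_zero]
    have hN : W * ∏ p ∈ x.1, p ≠ 1 := by
      intro h
      apply h1
      have : Subsingleton (ZMod (W * ∏ p ∈ x.1, p))ˣ := by
        rw [h]; infer_instance
      ext a
      rw [Subsingleton.elim a 1]
      simp
    have : Nontrivial (ZMod (W * ∏ p ∈ x.1, p)) := by
      have : Fact (1 < W * ∏ p ∈ x.1, p) := ⟨by omega⟩
      infer_instance
    exact MulChar.map_nonunit _ not_isUnit_zero
  · simp_rw [← h2]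
    refine (norm_sum_range_char_le h1 N).trans ?_
    exact_mod_cast Nat.mul_le_mul_left W (mem_TS.mp (mem_FX.mp hx)).2

lemma cube_le {S : Finset ℕ} {t : ℕ → ℝ} (ht : ∀ c, 0 ≤ t c) {m δ a : ℝ} (hS : (#S : ℝ) ≤ m)
    (ha : 0 ≤ a) (hδ : ∀ c ∈ S, a * t c ≤ δ) (hδ0 : 0 ≤ δ) :
    a * (∑ c ∈ S, t c) ^ 3 ≤ m ^ 2 * δ * ∑ c ∈ S, (t c) ^ 2 := by
  have hm : 0 ≤ m := (Nat.cast_nonneg _).trans hS
  have h1 : a * ∑ c ∈ S, t c ≤ m * δ := by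
    rw [Finset.mul_sum]
    refine (Finset.sum_le_sum hδ).trans ?_
    rw [Finset.sum_const, nsmul_eq_mul]
    exact mul_le_mul_of_nonneg_right hS hδ0
  have h2 : (∑ c ∈ S, t c) ^ 2 ≤ m * ∑ c ∈ S, (t c) ^ 2 := by
    refine (sq_sum_le_card_mul_sum_sq).trans ?_
    exact mul_le_mul_of_nonneg_right hS (Finset.sum_nonneg fun _ _ => sq_nonneg _)
  calc a * (∑ c ∈ S, t c) ^ 3 = (a * ∑ c ∈ S, t c) * (∑ c ∈ S, t c) ^ 2 := by ring
    _ ≤ (m * δ) * (m * ∑ c ∈ S, (t c) ^ 2) :=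
        mul_le_mul h1 h2 (sq_nonneg _) (mul_nonneg hm hδ0)
    _ = _ := by ring

/-- The weighted first moment of the transforms of the von Mangoldt function. -/
theorem family_bound {W R : ℕ} [NeZero W] {B : ℝ} (hB1 : 1 ≤ B)
    (hB : ∀ i : ℕ, ∑' n, w i n ≤ B) {U : ℕ} (hU : 8 * W ^ 2 * R ^ 8 ≤ U) {J n : ℕ} (hn : 1 ≤ n)
    (hnJ : 12 * n ≤ J) {X : Finset (Σ T : Finset ℕ, CF W T)} (hX : X ⊆ FX W R)
    (hne : ∀ x ∈ X, x.1.Nonempty ∨ x.2.1 ≠ 1) {a : (Σ T : Finset ℕ, CF W T) → ℝ}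
    (ha0 : ∀ x ∈ X, 0 ≤ a x) (ha1 : ∀ x ∈ X, a x ≤ 1) {δ : ℝ} (hδ0 : 0 ≤ δ)
    (hδ : ∀ x ∈ X, ∀ c, n ≤ c → a x * ‖MM (xs x) c muR‖ ≤ δ) :
    ∑ x ∈ X, a x * ‖MM (xs x) J vonMangoldt‖ ≤
      (W * R ^ 4) * (12 * ((J + 1) ^ 6 * (B ^ 5 * (4 * (W * R ^ 2) * K32 * (2 / 3) ^ n)))) +
      (J + 1) ^ 6 * B ^ 3 * δ *
        (2 * ((B + 1) * B) + 2 * ((W * R ^ 4) * ((U : ℝ) ^ 9 / 10 ^ n) ^ 2)) := by
  have hJ0 : (0 : ℝ) ≤ J := Nat.cast_nonneg J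
  have hB0 : 0 ≤ B := by linarith
  have hK := K32_nonneg
  set S := (range (J / 3 + 1)).filter (fun c => n ≤ c) with hS
  have hcard : (#S : ℝ) ≤ J + 1 := by
    have h1 : #S ≤ J / 3 + 1 := (Finset.card_filter_le _ _).trans_eq (Finset.card_range _)
    have h2 : #S ≤ J + 1 := by omega
    exact_mod_cast h2
  set E1 : ℝ := 12 * ((J + 1) ^ 6 * (B ^ 5 * (4 * (W * R ^ 2) * K32 * (2 / 3) ^ n))) with hE1
  have hE10 : 0 ≤ E1 := by positivity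
  have h1 : ∀ x ∈ X, a x * ‖MM (xs x) J vonMangoldt‖ ≤
      E1 + (J + 1) ^ 5 * B ^ 3 * δ * ∑ c ∈ S, ‖MM (xs x) c muR‖ ^ 2 := by
    intro x hx
    obtain ⟨p1, p2, p3, p4⟩ := xs_props (hX hx) (hne x hx)
    have h2 := char_bound (norm_xs_le x) p1 p2 p3 p4 hB1 hB hn hnJ
    rw [← hS] at h2
    push_cast at h2
    rw [← hE1] at h2
    have h3 := cube_le (S := S) (t := fun c => ‖MM (xs x) c muR‖) (fun c => norm_nonneg _) hcard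
      (ha0 x hx) (fun c hc => hδ x hx c (by rw [hS, Finset.mem_filter] at hc; exact hc.2)) hδ0
    have h4 : a x * E1 ≤ E1 := mul_le_of_le_one_left hE10 (ha1 x hx)
    calc a x * ‖MM (xs x) J vonMangoldt‖ ≤
        a x * (E1 + (J + 1) ^ 3 * B ^ 3 * (∑ c ∈ S, ‖MM (xs x) c muR‖) ^ 3) :=
          mul_le_mul_of_nonneg_left h2 (ha0 x hx)
      _ = a x * E1 + (J + 1) ^ 3 * B ^ 3 * (a x * (∑ c ∈ S, ‖MM (xs x) c muR‖) ^ 3) := by ring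
      _ ≤ E1 + (J + 1) ^ 3 * B ^ 3 * ((J + 1) ^ 2 * δ * ∑ c ∈ S, ‖MM (xs x) c muR‖ ^ 2) :=
          add_le_add h4 (mul_le_mul_of_nonneg_left h3 (by positivity))
      _ = _ := by ring
  refine (Finset.sum_le_sum h1).trans ?_
  rw [Finset.sum_add_distrib, Finset.sum_const, nsmul_eq_mul, ← Finset.mul_sum, Finset.sum_comm]
  refine add_le_add ?_ ?_
  · refine mul_le_mul_of_nonneg_right ?_ hE10
    have h2 : #X ≤ W * R ^ 4 := (Finset.card_le_card hX).trans (card_FX_le W R)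
    exact_mod_cast h2
  · set M : ℝ := 2 * ((B + 1) * B) + 2 * ((W * R ^ 4) * ((U : ℝ) ^ 9 / 10 ^ n) ^ 2) with hM
    have hM0 : 0 ≤ M := by positivity
    have h2 : ∀ c ∈ S, ∑ x ∈ X, ‖MM (xs x) c muR‖ ^ 2 ≤ M := by
      intro c hc
      rw [hS, Finset.mem_filter] at hc
      refine (Finset.sum_le_sum_of_subset_of_nonneg hX fun _ _ _ => sq_nonneg _).trans ?_
      refine (mu_mean hB1 hB hU c).trans ?_
      rw [hM]
      push_cast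
      have h3 : (U : ℝ) ^ 9 / 10 ^ c ≤ (U : ℝ) ^ 9 / 10 ^ n :=
        div_le_div_of_nonneg_left (by positivity) (by positivity)
          (pow_le_pow_right₀ (by norm_num) hc.2)
      gcongr
    have h3 : ∑ c ∈ S, ∑ x ∈ X, ‖MM (xs x) c muR‖ ^ 2 ≤ (J + 1) * M := by
      refine (Finset.sum_le_sum h2).trans ?_
      rw [Finset.sum_const, nsmul_eq_mul]
      exact mul_le_mul_of_nonneg_right hcard hM0
    calc (J + 1) ^ 5 * B ^ 3 * δ * ∑ c ∈ S, ∑ x ∈ X, ‖MM (xs x) c muR‖ ^ 2 ≤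
        (J + 1) ^ 5 * B ^ 3 * δ * ((J + 1) * M) := by gcongr
      _ = _ := by ring

end Pool.Agent.Helper99.MT2
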