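import Mathlib
import Pool.Agent.Helper99.MT2.Fam
import Pool.Agent.Helper99.MT2.Asymp

/-!
Equidistribution with growing modulus.
-/

open Finset Filter Topology

namespace Pool.Agent.Helper99.MT2

open Pool.Agent.Helper11.MT
open ArithmeticFunction (vonMangoldt)

/-- The bound for the transforms of the Moebius function over the family. -/
lemma pointwise_mu {κ C : ℝ} (hκ : 0 < κ) {B : ℝ} (hB1 : 1 ≤ B)
    (hB : ∀ i : ℕ, ∑' n, w i n ≤ B) {J pe n : ℕ} (hJ : 2 ≤ J) (hpe : pe.Prime)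
    (hz : ∀ N : ℕ, 0 < N → N ≤ DJ J → Squarefree N → ¬ pe ∣ N →
        ∀ χ : DirichletCharacter ℂ N, χ ≠ 1 → ∀ c : ℕ,
          ‖MM (fun n => χ n) c (fun n => (ArithmeticFunction.moebius n : ℝ))‖ ≤
            (Real.log (DJ J)) ^ C * (1 + κ / Real.log (DJ J)) ^ (-(c : ℝ)))
    {x : Σ T : Finset ℕ, CF (Wf (yJ J) pe) T} (hx : x ∈ FX (Wf (yJ J) pe) (RK J))
    (hpx : pe ∉ x.1) (hne : x.1.Nonempty ∨ x.2.1 ≠ 1) {c : ℕ} (hc : n ≤ c) :
    ((∏ p ∈ x.1, p : ℕ) : ℝ) ^ (-(3 / 4) : ℝ) * ‖MM (xs x) c muR‖ ≤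
      B * (J : ℝ) ^ (-9 : ℝ) +
        (Real.log (DJ J)) ^ C * (1 + κ / Real.log (DJ J)) ^ (-(n : ℝ)) := by
  have hW0 : NeZero (Wf (yJ J) pe) := ⟨(Wf_pos _ _).ne'⟩
  have hJ0 : (0 : ℝ) < J := by
    have : (2 : ℝ) ≤ J := by exact_mod_cast hJ
    linarith
  have hD : (1 : ℝ) < DJ J := by
    have h1 : (2 : ℝ) ≤ DJ J := by exact_mod_cast hJ.trans (le_DJ J)
    linarith
  have hl : 0 < Real.log (DJ J) := Real.log_pos hD
  have hT := prime_of_TS (mem_FX.mp hx)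
  have hTW := not_dvd_of_TS (mem_FX.mp hx)
  set P := ∏ p ∈ x.1, p with hP
  have hP0 : 0 < P := Finset.prod_pos fun p hp => (hT p hp).pos
  have hP1 : (1 : ℝ) ≤ P := by exact_mod_cast hP0
  have hPle : (P : ℝ) ^ (-(3 / 4) : ℝ) ≤ 1 :=
    Real.rpow_le_one_of_one_le_of_nonpos hP1 (by norm_num)
  have hPnn : 0 ≤ (P : ℝ) ^ (-(3 / 4) : ℝ) := by positivity
  have hn1 : ‖MM (xs x) c muR‖ ≤ B := norm_MM_le (norm_xs_le x) abs_muR_le hB c
  have hA : 0 ≤ B * (J : ℝ) ^ (-9 : ℝ) := by positivity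
  have hA2 : 0 ≤ (Real.log (DJ J)) ^ C * (1 + κ / Real.log (DJ J)) ^ (-(n : ℝ)) := by positivity
  by_cases hPJ : P ≤ J ^ 12
  · obtain ⟨ψ, h1, h2⟩ := xs_char2 hx hne
    have h3 := hz _ (modulus_pos hx) ?_ ?_ ?_ ψ h1 c
    · have e1 : MM (xs x) c muR =
          MM (fun n => ψ n) c (fun n => (ArithmeticFunction.moebius n : ℝ)) := by
        unfold MM
        refine tsum_congr fun n => ?_
        simp only [h2]
        rfl
      rw [← e1] at h3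
      have h4 : (1 + κ / Real.log (DJ J)) ^ (-(c : ℝ)) ≤ (1 + κ / Real.log (DJ J)) ^ (-(n : ℝ)) := by
        apply Real.rpow_le_rpow_of_exponent_le
        · have : 0 < κ / Real.log (DJ J) := by positivity
          linarith
        · have : (n : ℝ) ≤ c := by exact_mod_cast hc
          linarith
      calc (P : ℝ) ^ (-(3 / 4) : ℝ) * ‖MM (xs x) c muR‖ ≤ ‖MM (xs x) c muR‖ :=
            mul_le_of_le_one_left (norm_nonneg _) hPle
        _ ≤ (Real.log (DJ J)) ^ C * (1 + κ / Real.log (DJ J)) ^ (-(c : ℝ)) := h3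
        _ ≤ (Real.log (DJ J)) ^ C * (1 + κ / Real.log (DJ J)) ^ (-(n : ℝ)) :=
            mul_le_mul_of_nonneg_left h4 (Real.rpow_nonneg hl.le _)
        _ ≤ _ := by linarith
    · unfold DJ
      exact Nat.mul_le_mul (Wf_le _ _) hPJ
    · rw [Nat.squarefree_mul]
      · refine ⟨Wf_squarefree _ _, ?_⟩
        refine Finset.squarefree_prod_of_pairwise_isCoprime (fun p hp q hq hpq => ?_)
          (fun p hp => (hT p hp).squarefree)
        rw [Finset.mem_coe] at hp hq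
        exact Nat.coprime_iff_isRelPrime.mp ((Nat.coprime_primes (hT p hp) (hT q hq)).mpr hpq)
      · refine Nat.Coprime.prod_right fun p hp => ?_
        exact ((Nat.Prime.coprime_iff_not_dvd (hT p hp)).mpr (hTW p hp)).symm
    · intro hdvd
      rcases (Nat.Prime.dvd_mul hpe).mp hdvd with h | h
      · exact not_dvd_Wf hpe h
      · rw [Prime.dvd_finsetProd_iff hpe.prime] at h
        obtain ⟨p, hp, h⟩ := h
        have e : p = pe := ((Nat.prime_dvd_prime_iff_eq hpe (hT p hp)).mp h).symm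
        have h5 : p ∉ x.1 := fun h6 => hpx (e ▸ h6)
        exact h5 hp
  · push Not at hPJ
    have h3 : (P : ℝ) ^ (-(3 / 4) : ℝ) ≤ (J : ℝ) ^ (-9 : ℝ) := by
      have h4 : ((J : ℝ) ^ (12 : ℕ)) ≤ P := by exact_mod_cast hPJ.le
      calc (P : ℝ) ^ (-(3 / 4) : ℝ) ≤ ((J : ℝ) ^ (12 : ℕ)) ^ (-(3 / 4) : ℝ) :=
            Real.rpow_le_rpow_of_nonpos (by positivity) h4 (by norm_num)
        _ = (J : ℝ) ^ (-9 : ℝ) := by
            rw [← Real.rpow_natCast, ← Real.rpow_mul hJ0.le]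
            norm_num
    calc (P : ℝ) ^ (-(3 / 4) : ℝ) * ‖MM (xs x) c muR‖ ≤ (J : ℝ) ^ (-9 : ℝ) * B :=
          mul_le_mul h3 hn1 (norm_nonneg _) (by positivity)
      _ ≤ _ := by linarith

/-- Numerical estimates for the error terms. -/
lemma err_small {J W R : ℕ} (hJ : 24 ≤ J) (hW : (W : ℝ) ≤ Real.exp ((J : ℝ) / 500000))
    (hR : (R : ℝ) ≤ Real.exp ((J : ℝ) / 1000)) :
    (W : ℝ) ^ 2 * (R : ℝ) ^ 6 * (2 / 3) ^ (J / 12) ≤ 3 * Real.exp (-(J : ℝ) / 50) ∧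
    (W : ℝ) * (R : ℝ) ^ 4 * ((((8 * W ^ 2 * R ^ 8 : ℕ) : ℝ)) ^ 9 / 10 ^ (J / 12)) ^ 2 ≤
      8 ^ 18 * (Real.exp 4 * Real.exp (-(J : ℝ) / 50)) ∧
    (W : ℝ) * (R : ℝ) ^ 4 * (4 / 5) ^ J ≤ Real.exp (-(J : ℝ) / 50) ∧
    (W : ℝ) * (R : ℝ) ^ 4 * ((R : ℝ) ^ 2 / 2 ^ J) ≤ Real.exp (-(J : ℝ) / 50) := by
  have hJ0 : (0 : ℝ) ≤ J := Nat.cast_nonneg J
  have hW0 : (0 : ℝ) ≤ W := Nat.cast_nonneg W
  have hR0 : (0 : ℝ) ≤ R := Nat.cast_nonneg R
  have hWn : ∀ a : ℕ, (W : ℝ) ^ a ≤ Real.exp (a * ((J : ℝ) / 500000)) := fun a => by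
    rw [Real.exp_nat_mul]; exact pow_le_pow_left₀ hW0 hW a
  have hRn : ∀ a : ℕ, (R : ℝ) ^ a ≤ Real.exp (a * ((J : ℝ) / 1000)) := fun a => by
    rw [Real.exp_nat_mul]; exact pow_le_pow_left₀ hR0 hR a
  have hn : (J : ℝ) / 12 - 1 ≤ ((J / 12 : ℕ) : ℝ) := by
    have h6 : J ≤ 12 * (J / 12) + 12 := by omega
    have h7 : (J : ℝ) ≤ 12 * ((J / 12 : ℕ) : ℝ) + 12 := by exact_mod_cast h6
    linarith
  have h23 : (2 / 3 : ℝ) ^ (J / 12) ≤ Real.exp (-((J : ℝ) / 12 - 1) / 3) := by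
    have h1 : (2 / 3 : ℝ) ≤ Real.exp (-(1 / 3)) := by
      have := Real.one_sub_inv_le_log_of_pos (x := 3 / 2) (by norm_num)
      norm_num at this
      rw [← Real.log_le_iff_le_exp (by norm_num)]
      have h2 : Real.log (2 / 3) = - Real.log (3 / 2) := by
        rw [← Real.log_inv]; norm_num
      rw [h2]; linarith
    calc (2 / 3 : ℝ) ^ (J / 12) ≤ (Real.exp (-(1 / 3))) ^ (J / 12) :=
          pow_le_pow_left₀ (by norm_num) h1 _
      _ = Real.exp ((J / 12 : ℕ) * (-(1 / 3))) := by rw [Real.exp_nat_mul]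
      _ ≤ Real.exp (-((J : ℝ) / 12 - 1) / 3) := by
          apply Real.exp_le_exp.mpr
          linarith
  have h10 : Real.exp (2 * ((J : ℝ) / 12 - 1)) ≤ (10 : ℝ) ^ (J / 12) := by
    have h1 : Real.exp 2 ≤ 10 := by
      have h2 := exp_one_le_three
      have h3 : Real.exp 2 = Real.exp 1 * Real.exp 1 := by rw [← Real.exp_add]; norm_num
      have h4 := Real.exp_pos 1
      rw [h3]; nlinarith
    calc Real.exp (2 * ((J : ℝ) / 12 - 1)) ≤ Real.exp ((J / 12 : ℕ) * 2) := by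
          apply Real.exp_le_exp.mpr
          linarith
      _ = (Real.exp 2) ^ (J / 12) := by rw [Real.exp_nat_mul]
      _ ≤ 10 ^ (J / 12) := pow_le_pow_left₀ (Real.exp_pos _).le h1 _
  have h45 : (4 / 5 : ℝ) ^ J ≤ Real.exp (-(J : ℝ) / 5) := by
    have h1 : (4 / 5 : ℝ) ≤ Real.exp (-(1 / 5)) := by
      have := Real.add_one_le_exp (-(1 / 5) : ℝ)
      linarith
    calc (4 / 5 : ℝ) ^ J ≤ (Real.exp (-(1 / 5))) ^ J := pow_le_pow_left₀ (by norm_num) h1 _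
      _ = Real.exp (-(J : ℝ) / 5) := by rw [← Real.exp_nat_mul]; congr 1; ring
  have h2J : Real.exp ((J : ℝ) / 2) ≤ (2 : ℝ) ^ J := by
    have h1 : Real.exp (1 / 2) ≤ 2 := by
      have h2 := exp_one_le_three
      have h3 : Real.exp 1 = Real.exp (1 / 2) * Real.exp (1 / 2) := by
        rw [← Real.exp_add]; norm_num
      have h4 := Real.exp_pos (1 / 2)
      nlinarith
    calc Real.exp ((J : ℝ) / 2) = (Real.exp (1 / 2)) ^ J := by
          rw [← Real.exp_nat_mul]; congr 1; ring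
      _ ≤ 2 ^ J := pow_le_pow_left₀ (Real.exp_pos _).le h1 _
  refine ⟨?_, ?_, ?_, ?_⟩
  · calc (W : ℝ) ^ 2 * (R : ℝ) ^ 6 * (2 / 3) ^ (J / 12) ≤
        Real.exp ((2 : ℕ) * ((J : ℝ) / 500000)) * Real.exp ((6 : ℕ) * ((J : ℝ) / 1000)) *
          Real.exp (-((J : ℝ) / 12 - 1) / 3) := by
          gcongr
          · exact hWn 2
          · exact hRn 6
      _ = Real.exp ((2 : ℕ) * ((J : ℝ) / 500000) + (6 : ℕ) * ((J : ℝ) / 1000) +
          -((J : ℝ) / 12 - 1) / 3) := by rw [Real.exp_add, Real.exp_add]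
      _ ≤ Real.exp (1 + -(J : ℝ) / 50) := by
          apply Real.exp_le_exp.mpr
          push_cast
          linarith
      _ ≤ 3 * Real.exp (-(J : ℝ) / 50) := by
          rw [Real.exp_add]
          exact mul_le_mul_of_nonneg_right exp_one_le_three (Real.exp_pos _).le
  · have h1 : (W : ℝ) * (R : ℝ) ^ 4 * ((((8 * W ^ 2 * R ^ 8 : ℕ) : ℝ)) ^ 9 / 10 ^ (J / 12)) ^ 2 =
        8 ^ 18 * ((W : ℝ) ^ 37 * (R : ℝ) ^ 148 / (10 ^ (J / 12)) ^ 2) := by
      push_cast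
      ring
    rw [h1]
    refine mul_le_mul_of_nonneg_left ?_ (by positivity)
    rw [div_le_iff₀ (by positivity)]
    calc (W : ℝ) ^ 37 * (R : ℝ) ^ 148 ≤
        Real.exp ((37 : ℕ) * ((J : ℝ) / 500000)) * Real.exp ((148 : ℕ) * ((J : ℝ) / 1000)) := by
          gcongr
          · exact hWn 37
          · exact hRn 148
      _ = Real.exp ((37 : ℕ) * ((J : ℝ) / 500000) + (148 : ℕ) * ((J : ℝ) / 1000)) := by
          rw [Real.exp_add]
      _ ≤ Real.exp (4 + -(J : ℝ) / 50 + 2 * (2 * ((J : ℝ) / 12 - 1))) := by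
          apply Real.exp_le_exp.mpr
          push_cast
          linarith
      _ = Real.exp 4 * Real.exp (-(J : ℝ) / 50) * (Real.exp (2 * ((J : ℝ) / 12 - 1))) ^ 2 := by
          rw [Real.exp_add, Real.exp_add, ← Real.exp_nat_mul]
          push_cast
          ring
      _ ≤ Real.exp 4 * Real.exp (-(J : ℝ) / 50) * (10 ^ (J / 12)) ^ 2 := by
          gcongr
  · calc (W : ℝ) * (R : ℝ) ^ 4 * (4 / 5) ^ J ≤
        Real.exp ((J : ℝ) / 500000) * Real.exp ((4 : ℕ) * ((J : ℝ) / 1000)) *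
          Real.exp (-(J : ℝ) / 5) := by
          gcongr
          exact hRn 4
      _ = Real.exp ((J : ℝ) / 500000 + (4 : ℕ) * ((J : ℝ) / 1000) + -(J : ℝ) / 5) := by
          rw [Real.exp_add, Real.exp_add]
      _ ≤ Real.exp (-(J : ℝ) / 50) := by
          apply Real.exp_le_exp.mpr
          push_cast
          linarith
  · have h1 : (W : ℝ) * (R : ℝ) ^ 4 * ((R : ℝ) ^ 2 / 2 ^ J) = (W : ℝ) * (R : ℝ) ^ 6 / 2 ^ J := by
      ring
    rw [h1, div_le_iff₀ (by positivity)]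
    calc (W : ℝ) * (R : ℝ) ^ 6 ≤
        Real.exp ((J : ℝ) / 500000) * Real.exp ((6 : ℕ) * ((J : ℝ) / 1000)) := by
          gcongr
          exact hRn 6
      _ = Real.exp ((J : ℝ) / 500000 + (6 : ℕ) * ((J : ℝ) / 1000)) := by
          rw [Real.exp_add]
      _ ≤ Real.exp (-(J : ℝ) / 50 + (J : ℝ) / 2) := by
          apply Real.exp_le_exp.mpr
          push_cast
          linarith
      _ = Real.exp (-(J : ℝ) / 50) * Real.exp ((J : ℝ) / 2) := by rw [Real.exp_add]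
      _ ≤ Real.exp (-(J : ℝ) / 50) * 2 ^ J := by gcongr

lemma DJ_le_RK : ∀ᶠ J : ℕ in atTop, DJ J ≤ RK J := by
  have h1 : Tendsto (fun J : ℕ => (J : ℝ) ^ 12 * Real.exp (-(J : ℝ) / 2000)) atTop (𝓝 0) := by
    have h2 := (Real.tendsto_pow_mul_exp_neg_atTop_nhds_zero 12).comp
      ((tendsto_natCast_atTop_atTop (R := ℝ)).atTop_div_const (show (0 : ℝ) < 2000 by norm_num))
    have h3 := h2.const_mul ((2000 : ℝ) ^ 12)
    rw [mul_zero] at h3
    refine h3.congr fun J => ?_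
    simp only [Function.comp_apply]
    rw [div_pow, neg_div]
    field_simp
  filter_upwards [h1.eventually_le_const (show (0 : ℝ) < 1 / 2 by norm_num),
    yJ_small (c := 1 / 750000) (by norm_num), eventually_ge_atTop 100000] with J h1 h2 hJ
  have hJ1 : (100000 : ℝ) ≤ J := by exact_mod_cast hJ
  unfold RK
  apply Nat.le_floor
  rw [DJ_cast]
  have h3 : (4 : ℝ) ^ (yJ J) ≤ Real.exp ((J : ℝ) / 500000) := by
    have h4 : (4 : ℝ) ^ (yJ J) = Real.exp (yJ J * Real.log 4) := by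
      rw [Real.exp_nat_mul, Real.exp_log (by norm_num)]
    rw [h4]
    apply Real.exp_le_exp.mpr
    have h5 := log_four_le
    have h6 : (0 : ℝ) ≤ yJ J := Nat.cast_nonneg _
    calc (yJ J : ℝ) * Real.log 4 ≤ yJ J * (3 / 2) := mul_le_mul_of_nonneg_left h5 h6
      _ ≤ (1 / 750000 * J) * (3 / 2) := mul_le_mul_of_nonneg_right h2 (by norm_num)
      _ = (J : ℝ) / 500000 := by ring
  have h4 : (J : ℝ) ^ 12 ≤ 1 / 2 * Real.exp ((J : ℝ) / 2000) := by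
    have h5 : (J : ℝ) ^ 12 = (J : ℝ) ^ 12 * Real.exp (-(J : ℝ) / 2000) * Real.exp ((J : ℝ) / 2000) := by
      rw [mul_assoc, ← Real.exp_add, neg_div, neg_add_cancel, Real.exp_zero, mul_one]
    rw [h5]
    exact mul_le_mul_of_nonneg_right h1 (Real.exp_pos _).le
  calc (4 : ℝ) ^ (yJ J) * (J : ℝ) ^ 12 ≤
      Real.exp ((J : ℝ) / 500000) * (1 / 2 * Real.exp ((J : ℝ) / 2000)) := by gcongr
    _ = 1 / 2 * Real.exp ((J : ℝ) / 500000 + (J : ℝ) / 2000) := by rw [Real.exp_add]; ring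
    _ ≤ 1 * Real.exp ((J : ℝ) / 1000) := by
        refine mul_le_mul (by norm_num) ?_ (Real.exp_pos _).le (by norm_num)
        apply Real.exp_le_exp.mpr
        linarith
    _ = _ := by rw [one_mul]

/-- Equidistribution with growing modulus. -/
theorem eq2_of (hZF : ZFStatement) : EQ2Statement := by
  obtain ⟨κ, hκ, C, hC, hZ⟩ := hZF
  obtain ⟨B, hB1, hB⟩ := exists_Omega_bound
  obtain ⟨Cp, hCp, hpp⟩ := pp
  intro ε hε P0
  have hK := K32_nonneg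
  have hB0 : 0 ≤ B := by linarith
  -- limits
  set c1 : ℝ := 48 * B ^ 5 * K32 * 3 with hc1
  set M : ℝ := 2 * ((B + 1) * B) + 2 with hM
  have hM0 : 0 ≤ M := by positivity
  have t1 := tendsto_poly_exp (c1 + Cp + 1)
  have t2 : Tendsto (fun J : ℕ => B ^ 3 * M * (B * (64 / (J : ℝ)) + 64 / J)) atTop (𝓝 0) := by
    have h1 : Tendsto (fun J : ℕ => 64 / (J : ℝ)) atTop (𝓝 0) :=
      tendsto_const_nhds.div_atTop tendsto_natCast_atTop_atTop
    have h2 := ((h1.const_mul B).add h1).const_mul (B ^ 3 * M)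
    simpa using h2
  have t3 : Tendsto (fun J : ℕ => 8 ^ 18 * (Real.exp 4 * Real.exp (-(J : ℝ) / 50)))
      atTop (𝓝 0) := by
    have h1 : Tendsto (fun J : ℕ => Real.exp (-((J : ℝ) / 50))) atTop (𝓝 0) :=
      Real.tendsto_exp_neg_atTop_nhds_zero.comp
        (tendsto_natCast_atTop_atTop.atTop_div_const (by norm_num))
    have h2 := (h1.const_mul (Real.exp 4)).const_mul (8 ^ 18)
    rw [mul_zero, mul_zero] at h2
    refine h2.congr fun J => ?_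
    rw [neg_div]
  filter_upwards [tendsto_DJ.eventually (hZ P0), DJ_le_RK, Wf_small, decay hκ hC,
    t1.eventually_le_const (show (0 : ℝ) < ε / 2 by positivity),
    t2.eventually_le_const (show (0 : ℝ) < ε / 2 by positivity),
    t3.eventually_le_const (show (0 : ℝ) < 1 by norm_num), eventually_ge_atTop 24]
    with J hJZ hDR hWs hdec ht1 ht2 ht3 hJ
  obtain ⟨pe, hpe, hpe0, hpeD, hz⟩ := hJZ
  refine ⟨pe, hpe, hpe0, hpeD.trans hDR, ?_⟩
  set W := Wf (yJ J) pe with hW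
  set R := RK J with hR
  have hW0 : NeZero W := ⟨(Wf_pos _ _).ne'⟩
  set n := J / 12 with hn
  have hJ1 : (24 : ℝ) ≤ J := by exact_mod_cast hJ
  have hJ0 : (0 : ℝ) < J := by linarith
  set X := (FX W R).filter (fun x => pe ∉ x.1 ∧ (x.1.Nonempty ∨ x.2.1 ≠ 1)) with hX
  have hXF : X ⊆ FX W R := Finset.filter_subset _ _
  set a : (Σ T : Finset ℕ, CF W T) → ℝ := fun x => ((∏ p ∈ x.1, p : ℕ) : ℝ) ^ (-(3 / 4) : ℝ) with ha
  have ha0 : ∀ x ∈ X, 0 ≤ a x := fun x _ => by rw [ha]; positivity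
  have ha1 : ∀ x ∈ X, a x ≤ 1 := by
    intro x hx
    have h1 : 0 < ∏ p ∈ x.1, p :=
      Finset.prod_pos fun p hp => (prime_of_TS (mem_FX.mp (hXF hx)) p hp).pos
    exact Real.rpow_le_one_of_one_le_of_nonpos (by exact_mod_cast h1) (by norm_num)
  have hl : 0 ≤ Real.log (DJ J) := by
    apply Real.log_nonneg
    have : 1 ≤ DJ J := le_trans (by omega) (le_DJ J)
    exact_mod_cast this
  set δ : ℝ := B * (J : ℝ) ^ (-9 : ℝ) +
    (Real.log (DJ J)) ^ C * (1 + κ / Real.log (DJ J)) ^ (-(n : ℝ)) with hδ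
  have hδ0 : 0 ≤ δ := by
    have h1 : 0 ≤ κ / Real.log (DJ J) := div_nonneg hκ.le hl
    positivity
  have hfam := family_bound (W := W) (R := R) hB1 hB (U := 8 * W ^ 2 * R ^ 8) le_rfl (J := J)
    (n := n) (by omega) (by omega) hXF (fun x hx => by
      rw [hX, Finset.mem_filter] at hx; exact hx.2.2) ha0 ha1 hδ0 (fun x hx c hc => by
      rw [hX, Finset.mem_filter] at hx
      exact pointwise_mu hκ hB1 hB (by omega) hpe hz hx.1 hx.2.1 hx.2.2 hc)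
  obtain ⟨s1, s2, s3, s4⟩ := err_small hJ (hWs pe) (RK_le J)
  rw [← hW, ← hR] at s1 s2 s3 s4
  -- the terms with the von Mangoldt function replaced by theta
  have h1 : ∀ x ∈ X, a x * ‖MM (xs x) J (thetaR R)‖ ≤
      a x * ‖MM (xs x) J vonMangoldt‖ + (Cp * (4 / 5) ^ J + (R : ℝ) ^ 2 / 2 ^ J) := by
    intro x hx
    have h2 := hpp J R (xs x) (norm_xs_le x)
    have h3 : ‖MM (xs x) J (thetaR R)‖ ≤ ‖MM (xs x) J vonMangoldt‖ +
        ‖MM (xs x) J vonMangoldt - MM (xs x) J (thetaR R)‖ := by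
      have := norm_sub_norm_le (MM (xs x) J (thetaR R)) (MM (xs x) J vonMangoldt)
      rw [norm_sub_rev] at this
      linarith
    have h4 : 0 ≤ Cp * (4 / 5) ^ J + (R : ℝ) ^ 2 / 2 ^ J := by positivity
    calc a x * ‖MM (xs x) J (thetaR R)‖ ≤
        a x * (‖MM (xs x) J vonMangoldt‖ + (Cp * (4 / 5) ^ J + (R : ℝ) ^ 2 / 2 ^ J)) :=
          mul_le_mul_of_nonneg_left (h3.trans (by linarith)) (ha0 x hx)
      _ = a x * ‖MM (xs x) J vonMangoldt‖ + a x * (Cp * (4 / 5) ^ J + (R : ℝ) ^ 2 / 2 ^ J) := by ring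
      _ ≤ _ := by
          have := mul_le_of_le_one_left h4 (ha1 x hx)
          linarith
  refine (Finset.sum_le_sum h1).trans ?_
  rw [Finset.sum_add_distrib, Finset.sum_const, nsmul_eq_mul]
  have hcard : (#X : ℝ) ≤ W * R ^ 4 := by
    have h2 : #X ≤ W * R ^ 4 := (Finset.card_le_card hXF).trans (card_FX_le W R)
    exact_mod_cast h2
  have e1 : (#X : ℝ) * (Cp * (4 / 5) ^ J + (R : ℝ) ^ 2 / 2 ^ J) ≤
      (Cp + 1) * Real.exp (-(J : ℝ) / 50) := by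
    calc (#X : ℝ) * (Cp * (4 / 5) ^ J + (R : ℝ) ^ 2 / 2 ^ J) ≤
        (W * R ^ 4) * (Cp * (4 / 5) ^ J + (R : ℝ) ^ 2 / 2 ^ J) :=
          mul_le_mul_of_nonneg_right hcard (by positivity)
      _ = Cp * (W * R ^ 4 * (4 / 5) ^ J) + W * R ^ 4 * ((R : ℝ) ^ 2 / 2 ^ J) := by ring
      _ ≤ Cp * Real.exp (-(J : ℝ) / 50) + Real.exp (-(J : ℝ) / 50) :=
          add_le_add (mul_le_mul_of_nonneg_left s3 hCp) s4
      _ = _ := by ring
  have e2 : (W * R ^ 4) * (12 * (((J : ℝ) + 1) ^ 6 * (B ^ 5 * (4 * (W * R ^ 2) * K32 *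
      (2 / 3) ^ n)))) ≤ c1 * (((J : ℝ) + 1) ^ 6 * Real.exp (-(J : ℝ) / 50)) := by
    calc (W * R ^ 4) * (12 * (((J : ℝ) + 1) ^ 6 * (B ^ 5 * (4 * (W * R ^ 2) * K32 *
      (2 / 3) ^ n)))) = 48 * B ^ 5 * K32 * ((J : ℝ) + 1) ^ 6 *
          ((W : ℝ) ^ 2 * (R : ℝ) ^ 6 * (2 / 3) ^ n) := by ring
      _ ≤ 48 * B ^ 5 * K32 * ((J : ℝ) + 1) ^ 6 * (3 * Real.exp (-(J : ℝ) / 50)) :=
          mul_le_mul_of_nonneg_left s1 (by positivity)
      _ = _ := by rw [hc1]; ring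
  have e3 : ((J : ℝ) + 1) ^ 6 * B ^ 3 * δ * (2 * ((B + 1) * B) + 2 * ((W * R ^ 4) *
      ((((8 * W ^ 2 * R ^ 8 : ℕ) : ℝ)) ^ 9 / 10 ^ n) ^ 2)) ≤ ε / 2 := by
    have h2 : 2 * ((B + 1) * B) + 2 * ((W * R ^ 4) *
      ((((8 * W ^ 2 * R ^ 8 : ℕ) : ℝ)) ^ 9 / 10 ^ n) ^ 2) ≤ M := by
      rw [hM]
      have := s2.trans ht3
      linarith
    have h3 : ((J : ℝ) + 1) ^ 6 * δ ≤ B * (64 / J) + 64 / J := by
      rw [hδ, mul_add]
      refine add_le_add ?_ hdec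
      have h4 : ((J : ℝ) + 1) ^ 6 ≤ 64 * (J : ℝ) ^ 6 := by
        calc ((J : ℝ) + 1) ^ 6 ≤ (2 * (J : ℝ)) ^ 6 := by
              apply pow_le_pow_left₀ (by positivity)
              linarith
          _ = 64 * (J : ℝ) ^ 6 := by ring
      have h5 : (J : ℝ) ^ 6 * (J : ℝ) ^ (-9 : ℝ) ≤ 1 / J := by
        have h6 : (J : ℝ) ^ (-9 : ℝ) = 1 / (J : ℝ) ^ 9 := by
          rw [Real.rpow_neg hJ0.le, show (9 : ℝ) = ((9 : ℕ) : ℝ) by norm_num, Real.rpow_natCast,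
            one_div]
        rw [h6, mul_one_div, div_le_div_iff₀ (by positivity) hJ0]
        have h7 : (J : ℝ) ^ 6 * J = (J : ℝ) ^ 7 := by ring
        rw [h7, one_mul]
        exact pow_le_pow_right₀ (by linarith) (by norm_num)
      calc ((J : ℝ) + 1) ^ 6 * (B * (J : ℝ) ^ (-9 : ℝ)) ≤
          (64 * (J : ℝ) ^ 6) * (B * (J : ℝ) ^ (-9 : ℝ)) :=
            mul_le_mul_of_nonneg_right h4 (by positivity)
        _ = 64 * B * ((J : ℝ) ^ 6 * (J : ℝ) ^ (-9 : ℝ)) := by ring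
        _ ≤ 64 * B * (1 / J) := mul_le_mul_of_nonneg_left h5 (by positivity)
        _ = B * (64 / J) := by ring
    calc ((J : ℝ) + 1) ^ 6 * B ^ 3 * δ * (2 * ((B + 1) * B) + 2 * ((W * R ^ 4) *
      ((((8 * W ^ 2 * R ^ 8 : ℕ) : ℝ)) ^ 9 / 10 ^ n) ^ 2)) ≤
        ((J : ℝ) + 1) ^ 6 * B ^ 3 * δ * M := mul_le_mul_of_nonneg_left h2 (by positivity)
      _ = B ^ 3 * M * (((J : ℝ) + 1) ^ 6 * δ) := by ring
      _ ≤ B ^ 3 * M * (B * (64 / J) + 64 / J) := mul_le_mul_of_nonneg_left h3 (by positivity)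
      _ ≤ ε / 2 := ht2
  have e4 : (Cp + 1) * Real.exp (-(J : ℝ) / 50) ≤
      (Cp + 1) * (((J : ℝ) + 1) ^ 6 * Real.exp (-(J : ℝ) / 50)) := by
    refine mul_le_mul_of_nonneg_left ?_ (by linarith)
    refine le_mul_of_one_le_left (Real.exp_pos _).le ?_
    exact one_le_pow₀ (by linarith)
  calc ∑ x ∈ X, a x * ‖MM (xs x) J vonMangoldt‖ +
        (#X : ℝ) * (Cp * (4 / 5) ^ J + (R : ℝ) ^ 2 / 2 ^ J) ≤
      (c1 * (((J : ℝ) + 1) ^ 6 * Real.exp (-(J : ℝ) / 50)) + ε / 2) +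
        (Cp + 1) * (((J : ℝ) + 1) ^ 6 * Real.exp (-(J : ℝ) / 50)) :=
        add_le_add (hfam.trans (add_le_add e2 e3)) (e1.trans e4)
    _ = (c1 + Cp + 1) * (((J : ℝ) + 1) ^ 6 * Real.exp (-(J : ℝ) / 50)) + ε / 2 := by ring
    _ ≤ ε := by linarith

end Pool.Agent.Helper99.MT2
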