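import Mathlib
import Pool.Agent.Helper99.MT2.EQTwo
import Pool.Agent.Helper94.ZF.Final

/-!
Equidistribution with growing modulus, unconditionally.
-/

namespace Pool.Agent.Helper99.MT2

theorem eq2 : EQ2Statement := eq2_of Pool.Agent.Helper94.ZF.zf

end Pool.Agent.Helper99.MT2
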